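import Pool.Agent.H581R2.Cmp.Slp

set_option autoImplicit false

/-! Monotone circuits of linear size and small depth for pyramid path systems. -/

namespace Pool.Agent.H581R2.Cmp

def ruleEquiv (h q : ℕ) : Rule h q ≃ (Fin (h + 1) × Fin q) ⊕
    ((Fin h × Fin h × Fin q × Fin q × Fin q) ⊕ Fin q) where
  toFun
    | Rule.src j a => Sum.inl (j, a)
    | Rule.mid i j a b c => Sum.inr (Sum.inl (i, j, a, b, c))
    | Rule.fin a => Sum.inr (Sum.inr a)
  invFun
    | Sum.inl (j, a) => Rule.src j a
    | Sum.inr (Sum.inl (i, j, a, b, c)) => Rule.mid i j a b c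
    | Sum.inr (Sum.inr a) => Rule.fin a
  left_inv := by rintro (_ | _ | _) <;> rfl
  right_inv := by rintro (⟨_, _⟩ | ⟨_, _, _, _, _⟩ | _) <;> rfl

instance (h q : ℕ) : Fintype (Rule h q) := Fintype.ofEquiv _ (ruleEquiv h q).symm

theorem card_rule (M h q : ℕ) : Fintype.card (Fin M × Rule h q) =
    M * ((h + 1) * q + (h ^ 2 * q ^ 3 + q)) := by
  rw [Fintype.card_prod, Fintype.card_fin, Fintype.card_congr (ruleEquiv h q)]
  simp only [Fintype.card_sum, Fintype.card_prod, Fintype.card_fin]
  ring

theorem card_rule' (M h q : ℕ) : Nat.card (Fin M × Rule h q) =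
    M * ((h + 1) * q + (h ^ 2 * q ^ 3 + q)) := by
  rw [Nat.card_eq_fintype_card, card_rule]

section

variable {M h q : ℕ}

open Classical in
/-- the function `element (i,j,a) of copy r is derivable` -/
noncomputable def Dfun (r : Fin M) (i j : Fin (h + 1)) (a : Fin q) :
    (Fin M × Rule h q → Bool) → Bool :=
  fun x => decide (Der (fun e => x (r, e)) i j a)

theorem der_inv {x : Rule h q → Bool} {i j : Fin (h + 1)} {a : Fin q} (hd : Der x i j a) :
    (i = Fin.last h ∧ x (Rule.src j a) = true) ∨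
    ∃ (i' j' : Fin h) (b c : Fin q), i = i'.castSucc ∧ j = j'.castSucc ∧
      x (Rule.mid i' j' a b c) = true ∧ Der x i'.succ j'.castSucc b ∧ Der x i'.succ j'.succ c := by
  cases hd with
  | src j a h1 => exact Or.inl ⟨rfl, h1⟩
  | mid i j a b c h1 h2 h3 => exact Or.inr ⟨i, j, b, c, rfl, rfl, h1, h2, h3⟩

theorem Dfun_last (r : Fin M) (j : Fin (h + 1)) (a : Fin q) :
    Dfun r (Fin.last h) j a = fun x => x (r, Rule.src j a) := by
  classical
  funext x
  unfold Dfun
  rw [Bool.eq_iff_iff, decide_eq_true_eq]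
  constructor
  · intro hd
    rcases der_inv hd with ⟨-, h1⟩ | ⟨i', j', b, c, h1, -⟩
    · exact h1
    · exact absurd (congrArg Fin.val h1) (by simp; omega)
  · intro h1; exact Der.src j a h1

/-- one way of deriving an element -/
noncomputable def term (r : Fin M) (i j : Fin h) (a : Fin q) (z : Fin q × Fin q) :
    (Fin M × Rule h q → Bool) → Bool :=
  fun x => (x (r, Rule.mid i j a z.1 z.2) && Dfun r i.succ j.castSucc z.1 x) &&
    Dfun r i.succ j.succ z.2 x

theorem Dfun_cast (r : Fin M) (i j : Fin h) (a : Fin q) :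
    Dfun r i.castSucc j.castSucc a = fun x =>
      ((Finset.univ : Finset (Fin q × Fin q)).toList.map (term r i j a)).any (fun f => f x) := by
  classical
  funext x
  rw [Bool.eq_iff_iff, List.any_eq_true]
  simp only [List.mem_map, Finset.mem_toList, Finset.mem_univ, true_and]
  unfold Dfun term
  rw [decide_eq_true_eq]
  constructor
  · intro hd
    rcases der_inv hd with ⟨h1, -⟩ | ⟨i', j', b, c, h1, h2, h3, h4, h5⟩
    · exact absurd (congrArg Fin.val h1) (by simp; omega)
    · obtain rfl := Fin.castSucc_injective _ h1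
      obtain rfl := Fin.castSucc_injective _ h2
      refine ⟨_, ⟨(b, c), rfl⟩, ?_⟩
      simp only [Dfun, Bool.and_eq_true, decide_eq_true_eq]
      exact ⟨⟨h3, h4⟩, h5⟩
  · rintro ⟨_, ⟨⟨b, c⟩, rfl⟩, h1⟩
    simp only [Dfun, Bool.and_eq_true, decide_eq_true_eq] at h1
    exact Der.mid i j a b c h1.1.1 h1.1.2 h1.2

theorem levels (hq : 0 < q) (κ : ℕ) (hκ : q * q ≤ 2 ^ κ)
    (L0 : List (((Fin M × Rule h q → Bool) → Bool) × ℕ)) (hL0 : Slp L0)
    (hv : ∀ e, Has L0 (fun x => x e) 0) (k : ℕ) (hk : k ≤ h) :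
    ∃ L, Ext L0 L (k * (M * ((h + 1) * q) * (3 * (q * q)))) ∧
      ∀ i : Fin (h + 1), i.val + k = h → ∀ j ≤ i, ∀ (r : Fin M) (a : Fin q),
        Has L (Dfun r i j a) (k * (2 + κ)) := by
  induction k with
  | zero =>
    refine ⟨L0, ⟨hL0, List.Subset.refl _, by simp⟩, fun i hi j _ r a => ?_⟩
    have : i = Fin.last h := Fin.ext (by simpa using hi)
    subst this
    rw [Dfun_last]
    exact (hv (r, Rule.src j a)).mono (List.Subset.refl _) (Nat.zero_le _)
  | succ k ih =>
    obtain ⟨L, hL, hD⟩ := ih (by omega)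
    classical
    let i : Fin h := ⟨h - (k + 1), by omega⟩
    let f : Fin M × Fin (h + 1) × Fin q → ((Fin M × Rule h q → Bool) → Bool) := fun z =>
      if z.2.1 ≤ i.castSucc then Dfun z.1 i.castSucc z.2.1 z.2.2 else
        fun x => x (z.1, Rule.fin z.2.2)
    have hstep : ∀ z, ∀ L1, Slp L1 → L ⊆ L1 → ∃ L', Ext L1 L' (3 * (q * q)) ∧
        Has L' (f z) ((k + 1) * (2 + κ)) := by
      rintro ⟨r, j, a⟩ L1 hL1 hsub
      simp only [f]
      by_cases hj : j ≤ i.castSucc
      · rw [if_pos hj]
        have hlt : j.val < h := by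
          have h1 : j.val ≤ i.castSucc.val := hj
          have h2 := i.isLt
          rw [Fin.val_castSucc] at h1
          omega
        obtain ⟨j', rfl⟩ : ∃ j' : Fin h, j = j'.castSucc := ⟨⟨j.val, hlt⟩, rfl⟩
        have hle : j'.val ≤ i.val := hj
        have hi : i.succ.val + k = h := by simp [i]; omega
        have hterm : ∀ z, ∀ L2, Slp L2 → L1 ⊆ L2 → ∃ L', Ext L2 L' 2 ∧
            Has L' (term r i j' a z) (k * (2 + κ) + 2) := by
          rintro ⟨b, c⟩ L2 hL2 hsub2
          have a1 : Has L2 (fun x => x (r, Rule.mid i j' a b c)) (k * (2 + κ)) :=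
            (hv _).mono (fun _ hx => hsub2 (hsub (hL.2.1 hx))) (Nat.zero_le _)
          have a2 : Has L2 (Dfun r i.succ j'.castSucc b) (k * (2 + κ)) :=
            (hD i.succ hi j'.castSucc (by
              rw [Fin.le_def]; simp only [Fin.val_castSucc, Fin.val_succ]; omega) r b).mono
              (fun _ hx => hsub2 (hsub hx)) le_rfl
          have a3 : Has L2 (Dfun r i.succ j'.succ c) (k * (2 + κ)) :=
            (hD i.succ hi j'.succ (by
              rw [Fin.le_def]; simp only [Fin.val_succ]; omega) r c).mono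
              (fun _ hx => hsub2 (hsub hx)) le_rfl
          obtain ⟨L3, b1, b2⟩ := ext_and hL2 a1 a2
          obtain ⟨L4, b3, b4⟩ := ext_and b1.1 b2 (a3.mono b1.2.1 (Nat.le_succ _))
          exact ⟨L4, b1.trans b3, b4⟩
        obtain ⟨L2, h3, h4⟩ := ext_all (term r i j' a) (k * (2 + κ) + 2) 2 L1 hterm
          (Finset.univ : Finset (Fin q × Fin q)).toList hL1
        have hlen : ((Finset.univ : Finset (Fin q × Fin q)).toList.map
            (term r i j' a)).length = q * q := by
          simp
        obtain ⟨L3, h5, h6⟩ := ext_any κ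
          ((Finset.univ : Finset (Fin q × Fin q)).toList.map (term r i j' a))
          (by
            intro he
            rw [he] at hlen
            simp only [List.length_nil] at hlen
            have := Nat.mul_pos hq hq
            omega) (by rw [hlen]; exact hκ) L2 (k * (2 + κ) + 2) h3.1
          (fun g hg => by
            obtain ⟨z, hz, rfl⟩ := List.mem_map.1 hg
            exact h4 z hz)
        refine ⟨L3, ?_, ?_⟩
        · have h7 := h3.trans h5
          refine ⟨h7.1, h7.2.1, ?_⟩
          have h8 := h7.2.2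
          rw [hlen, Finset.length_toList, Finset.card_univ, Fintype.card_prod,
            Fintype.card_fin] at h8
          omega
        · rw [Dfun_cast]
          refine h6.mono (List.Subset.refl _) (le_of_eq ?_)
          ring
      · rw [if_neg hj]
        exact ⟨L1, ⟨hL1, List.Subset.refl _, by omega⟩,
          (hv _).mono (fun _ hx => hsub (hL.2.1 hx)) (Nat.zero_le _)⟩
    obtain ⟨L', hL', hf⟩ := ext_all f ((k + 1) * (2 + κ)) (3 * (q * q)) L hstep
      (Finset.univ : Finset (Fin M × Fin (h + 1) × Fin q)).toList hL.1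
    refine ⟨L', ?_, ?_⟩
    · have h1 := hL.trans hL'
      refine ⟨h1.1, h1.2.1, ?_⟩
      have h2 := h1.2.2
      rw [Finset.length_toList, Finset.card_univ, Fintype.card_prod, Fintype.card_prod,
        Fintype.card_fin, Fintype.card_fin, Fintype.card_fin] at h2
      rw [Nat.succ_mul]
      omega
    · intro i0 hi0 j hj r a
      have e : i0 = i.castSucc := Fin.ext (by simp [i]; omega)
      subst e
      have := hf (r, j, a) (by simp)
      simp only [f] at this
      rw [if_pos hj] at this
      exact this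

/-- Pyramid path systems have small shallow monotone circuits. -/
theorem upper (hM : 0 < M) (hq : 0 < q) (κ l : ℕ) (hκ : q * q ≤ 2 ^ κ) (hl : M * q ≤ 2 ^ l) :
    ∃ f : (Fin M × Rule h q → Bool) → Bool, (∀ x, f x = true ↔ SomePyr M h q x) ∧
      MonCirc f (8 * Nat.card (Fin M × Rule h q)) (h * (2 + κ) + 1 + l) := by
  classical
  obtain ⟨L0, hL0, hlen0, hv0⟩ := vars (Finset.univ : Finset (Fin M × Rule h q)).toList
  have hv : ∀ e, Has L0 (fun x : Fin M × Rule h q → Bool => x e) 0 := fun e => hv0 e (by simp)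
  obtain ⟨L, hL, hD⟩ := levels hq κ hκ L0 hL0 hv h le_rfl
  let g : Fin M × Fin q → ((Fin M × Rule h q → Bool) → Bool) := fun z x =>
    x (z.1, Rule.fin z.2) && Dfun z.1 0 0 z.2 x
  obtain ⟨L1, h1, h2⟩ := ext_all g (h * (2 + κ) + 1) 1 L (by
    rintro ⟨r, a⟩ L1 hL1 hsub
    exact ext_and hL1 ((hv (r, Rule.fin a)).mono (fun _ hx => hsub (hL.2.1 hx)) (Nat.zero_le _))
      ((hD 0 (by simp) 0 le_rfl r a).mono hsub le_rfl))
    (Finset.univ : Finset (Fin M × Fin q)).toList hL.1
  have hlen : ((Finset.univ : Finset (Fin M × Fin q)).toList.map g).length = M * q := by simp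
  obtain ⟨L2, h3, h4⟩ := ext_any l ((Finset.univ : Finset (Fin M × Fin q)).toList.map g)
    (by
      intro he
      rw [he] at hlen
      simp only [List.length_nil] at hlen
      have := Nat.mul_pos hM hq
      omega) (by rw [hlen]; exact hl) L1 (h * (2 + κ) + 1) h1.1
    (fun f hf => by
      obtain ⟨z, hz, rfl⟩ := List.mem_map.1 hf
      exact h2 z hz)
  refine ⟨fun x => ((Finset.univ : Finset (Fin M × Fin q)).toList.map g).any (fun f => f x),
    fun x => ?_, L2, ?_⟩
  · rw [List.any_eq_true]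
    simp only [List.mem_map, Finset.mem_toList, Finset.mem_univ, true_and]
    constructor
    · rintro ⟨_, ⟨⟨r, a⟩, rfl⟩, h5⟩
      simp only [g, Dfun, Bool.and_eq_true, decide_eq_true_eq] at h5
      exact ⟨r, a, h5.1, h5.2⟩
    · rintro ⟨r, a, h5, h6⟩
      refine ⟨_, ⟨(r, a), rfl⟩, ?_⟩
      simp only [g, Dfun, Bool.and_eq_true, decide_eq_true_eq]
      exact ⟨h5, h6⟩
  · obtain ⟨d', hd', hmem⟩ := h4
    refine ⟨d', h3.1, ?_, hmem, by omega⟩
    have h7 := ((hL.trans h1).trans h3).2.2
    have c1 : Fintype.card (Fin M × Fin q) = M * q := by simp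
    rw [hlen, hlen0, Finset.length_toList, Finset.length_toList, Finset.card_univ,
      Finset.card_univ, c1, card_rule] at h7
    rw [card_rule']
    refine h7.trans ?_
    have hh : h * (h + 1) ≤ 2 * h ^ 2 + 0 ∨ h = 0 := by
      rcases Nat.eq_zero_or_pos h with h0 | h0
      · right; exact h0
      · left; nlinarith
    have e1 : h * (M * ((h + 1) * q) * (3 * (q * q))) = 3 * (M * (q ^ 3 * (h * (h + 1)))) := by
      ring
    have e2 : 3 * (M * (q ^ 3 * (h * (h + 1)))) ≤ 6 * (M * (q ^ 3 * h ^ 2)) := by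
      rcases hh with hh | hh
      · have := Nat.mul_le_mul_left (M * q ^ 3) hh
        nlinarith
      · subst hh; simp
    have e3 : M * q ≤ M * ((h + 1) * q) := by
      apply Nat.mul_le_mul_left
      nlinarith
    have e4 : M * ((h + 1) * q + (h ^ 2 * q ^ 3 + q)) =
        M * ((h + 1) * q) + M * (q ^ 3 * h ^ 2) + M * q := by ring
    rw [e1, e4]
    omega

end

end Pool.Agent.H581R2.Cmp
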