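import Pool.Agent.H581R2.Cmp.Main
import Pool.Agent.H581R2.Cmp.Upper

set_option autoImplicit false

/-! The two choices of the parameters. -/

namespace Pool.Agent.H581R2.Cmp

theorem choose_le (n k : ℕ) : n.choose k ≤ n ^ k := Nat.choose_le_pow n k

/-- exponential form -/
theorem exp_form (M h : ℕ) {w : ℕ} (C : Circuit (Fin M × Rule h (2 * (h + 1) ^ 2)) w)
    (hC : ∀ x, C.val x = true ↔ SomePyr M h (2 * (h + 1) ^ 2) x) :
    (2 * M ≤ 2 ^ copies C.prog * (negs C.prog * (negs C.prog + 1)) ∧ M < 2 ^ negs C.prog) ∨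
      2 ^ (h + 1) ≤ 2 ^ copies C.prog * w := by
  rcases main C hC with h1 | h1
  · left; exact h1
  · right
    have h2 := choose_le ((h + 1) ^ 2) (h + 1)
    rw [mul_pow] at h1
    have hpos : 0 < ((h + 1) ^ 2) ^ (h + 1) := by positivity
    refine Nat.le_of_mul_le_mul_right ?_ hpos
    calc 2 ^ (h + 1) * ((h + 1) ^ 2) ^ (h + 1)
        ≤ 2 ^ copies C.prog * (w * ((h + 1) ^ 2).choose (h + 1)) := h1
      _ ≤ 2 ^ copies C.prog * (w * ((h + 1) ^ 2) ^ (h + 1)) := by gcongr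
      _ = 2 ^ copies C.prog * w * ((h + 1) ^ 2) ^ (h + 1) := by ring

theorem exp_card (M h : ℕ) :
    Nat.card (Fin M × Rule h (2 * (h + 1) ^ 2)) ≤ 8 * M * (h + 1) ^ 8 := by
  rw [card_rule']
  have : (h + 1) * (2 * (h + 1) ^ 2) + (h ^ 2 * (2 * (h + 1) ^ 2) ^ 3 + 2 * (h + 1) ^ 2) ≤
      8 * (h + 1) ^ 8 := by
    have e : 8 * (h + 1) ^ 8 = 8 * h ^ 2 * (h + 1) ^ 6 + 8 * (2 * h + 1) * (h + 1) ^ 6 := by ring
    have e2 : h ^ 2 * (2 * (h + 1) ^ 2) ^ 3 = 8 * h ^ 2 * (h + 1) ^ 6 := by ring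
    rw [e, e2]
    have h1 : (h + 1) ^ 3 ≤ (h + 1) ^ 6 := Nat.pow_le_pow_right (by omega) (by omega)
    have h2 : (h + 1) ^ 2 ≤ (h + 1) ^ 6 := Nat.pow_le_pow_right (by omega) (by omega)
    have h3 : 8 * (h + 1) ^ 6 ≤ 8 * (2 * h + 1) * (h + 1) ^ 6 := by
      apply Nat.mul_le_mul_right; omega
    have e3 : (h + 1) * (2 * (h + 1) ^ 2) = 2 * (h + 1) ^ 3 := by ring
    rw [e3]
    omega
  calc M * ((h + 1) * (2 * (h + 1) ^ 2) + (h ^ 2 * (2 * (h + 1) ^ 2) ^ 3 + 2 * (h + 1) ^ 2))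
      ≤ M * (8 * (h + 1) ^ 8) := Nat.mul_le_mul_left M this
    _ = 8 * M * (h + 1) ^ 8 := by ring

/-- the height in the quasi-polynomial form -/
def ht (n : ℕ) : ℕ := n * (Nat.log 2 n + 1)

/-- number of variables in the quasi-polynomial form -/
noncomputable def nv (n : ℕ) : ℕ := Nat.card (Fin (2 ^ n ^ 2) × Rule (ht n) (2 ^ n))

theorem nv_eq (n : ℕ) : nv n =
    2 ^ n ^ 2 * ((ht n + 1) * 2 ^ n + (ht n ^ 2 * (2 ^ n) ^ 3 + 2 ^ n)) := card_rule' _ _ _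

theorem nv_ge (n : ℕ) : 2 ^ n ^ 2 ≤ nv n := by
  rw [nv_eq]
  refine Nat.le_mul_of_pos_right _ ?_
  have : 0 < 2 ^ n := by positivity
  positivity

theorem nv_log (n : ℕ) : n ^ 2 ≤ Nat.log 2 (nv n) := by
  have h1 := Nat.log_mono_right (b := 2) (nv_ge n)
  rwa [Nat.log_pow (by norm_num)] at h1

theorem depth_bound (n : ℕ) (hn : 1 ≤ n) :
    ht n * (2 + 2 * n) + 1 + (n ^ 2 + n) ≤
      7 * (Nat.log 2 (nv n) * (Nat.log 2 (Nat.log 2 (nv n)) + 1)) := by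
  have h1 := nv_log n
  have h2 : Nat.log 2 n ≤ Nat.log 2 (Nat.log 2 (nv n)) := by
    refine Nat.log_mono_right ((Nat.le_self_pow (by norm_num) n).trans h1)
  have h3 : n ^ 2 * (Nat.log 2 n + 1) ≤
      Nat.log 2 (nv n) * (Nat.log 2 (Nat.log 2 (nv n)) + 1) :=
    Nat.mul_le_mul h1 (by omega)
  have h4 : ht n * (2 + 2 * n) ≤ 4 * (n ^ 2 * (Nat.log 2 n + 1)) := by
    unfold ht
    have : n * (2 + 2 * n) ≤ 4 * n ^ 2 := by nlinarith
    calc n * (Nat.log 2 n + 1) * (2 + 2 * n) = n * (2 + 2 * n) * (Nat.log 2 n + 1) := by ring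
      _ ≤ 4 * n ^ 2 * (Nat.log 2 n + 1) := Nat.mul_le_mul_right _ this
      _ = 4 * (n ^ 2 * (Nat.log 2 n + 1)) := by ring
  have h5 : n ^ 2 ≤ n ^ 2 * (Nat.log 2 n + 1) := Nat.le_mul_of_pos_right _ (by omega)
  have h6 : n ≤ n ^ 2 := Nat.le_self_pow (by norm_num) n
  omega

theorem poly_le {n : ℕ} (hn : 64 ≤ n) : 16 * n ^ 8 ≤ 2 ^ n := by
  induction n, hn using Nat.le_induction with
  | base => norm_num
  | succ n hn ih =>
    have h1 : (64 * (n + 1)) ^ 8 ≤ (65 * n) ^ 8 := Nat.pow_le_pow_left (by omega) 8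
    rw [mul_pow, mul_pow] at h1
    have h2 : 65 ^ 8 * n ^ 8 ≤ 2 * 64 ^ 8 * n ^ 8 := Nat.mul_le_mul_right _ (by norm_num)
    have h3 : 64 ^ 8 * (n + 1) ^ 8 ≤ 64 ^ 8 * (2 * n ^ 8) := by
      calc 64 ^ 8 * (n + 1) ^ 8 ≤ 65 ^ 8 * n ^ 8 := h1
        _ ≤ 2 * 64 ^ 8 * n ^ 8 := h2
        _ = 64 ^ 8 * (2 * n ^ 8) := by ring
    have h4 := Nat.le_of_mul_le_mul_left h3 (by norm_num)
    rw [pow_succ 2 n]
    omega

theorem ht_le {n : ℕ} (hn : 64 ≤ n) : (ht n + 1) ^ 4 ≤ 2 ^ n := by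
  have h1 : Nat.log 2 n + 1 ≤ n := by
    have := Nat.log_lt_self 2 (show n ≠ 0 by omega)
    omega
  have h2 : ht n + 1 ≤ 2 * n ^ 2 := by
    unfold ht
    have := Nat.mul_le_mul_left n h1
    nlinarith
  calc (ht n + 1) ^ 4 ≤ (2 * n ^ 2) ^ 4 := Nat.pow_le_pow_left h2 4
    _ = 16 * n ^ 8 := by ring
    _ ≤ 2 ^ n := poly_le hn

theorem nv_le {n : ℕ} (hn : 64 ≤ n) : nv n ≤ 2 ^ (n ^ 2 + 4 * n) := by
  rw [nv_eq, pow_add]
  refine Nat.mul_le_mul_left _ ?_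
  have hh : 1 ≤ ht n := by
    unfold ht
    exact Nat.mul_pos (by omega) (by omega)
  set b := ht n with hb
  set q := 2 ^ n with hq
  have hq1 : 1 ≤ q := Nat.one_le_two_pow
  have h1 : (b + 1) * q + (b ^ 2 * q ^ 3 + q) ≤ (b + 1) ^ 2 * q ^ 3 := by
    have h2 : q ≤ q ^ 3 := Nat.le_self_pow (by norm_num) q
    have h3 : (b + 2) * q ≤ (2 * b + 1) * q ^ 3 := Nat.mul_le_mul (by omega) h2
    nlinarith
  have h4 : (b + 1) ^ 2 ≤ q := by
    refine le_trans ?_ (ht_le hn)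
    exact Nat.pow_le_pow_right (by omega) (by norm_num)
  calc (b + 1) * q + (b ^ 2 * q ^ 3 + q) ≤ (b + 1) ^ 2 * q ^ 3 := h1
    _ ≤ q * q ^ 3 := Nat.mul_le_mul_right _ h4
    _ = 2 ^ (4 * n) := by rw [hq, mul_comm 4 n, pow_mul]; ring

/-- quasi-polynomial form -/
theorem quasi_form (k : ℕ) (hk : 1 ≤ k) : ∃ n0 : ℕ, ∀ n ≥ n0, ∀ w ≤ nv n ^ k,
    ∀ C : Circuit (Fin (2 ^ n ^ 2) × Rule (ht n) (2 ^ n)) w,
      (∀ x, C.val x = true ↔ SomePyr (2 ^ n ^ 2) (ht n) (2 ^ n) x) →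
      2 ^ (2 * k * copies C.prog) ≤ nv n →
      nv n ^ (k - 1) ≤ (negs C.prog + 1) ^ (2 * k) := by
  refine ⟨2 ^ (10 * (k + 1)), fun n hn w hw C hC hcop => ?_⟩
  have hn64 : 64 ≤ n := by
    refine le_trans ?_ hn
    calc 64 = 2 ^ 6 := by norm_num
      _ ≤ 2 ^ (10 * (k + 1)) := Nat.pow_le_pow_right (by norm_num) (by omega)
  have hnk : 8 * k ≤ n := by
    refine le_trans ?_ hn
    have : 10 * (k + 1) < 2 ^ (10 * (k + 1)) := Nat.lt_two_pow_self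
    omega
  have hlog : 10 * (k + 1) ≤ Nat.log 2 n := by
    have := Nat.log_mono_right (b := 2) hn
    rwa [Nat.log_pow (by norm_num)] at this
  have hN := nv_le hn64
  have hN1 : 1 ≤ nv n := le_trans Nat.one_le_two_pow (nv_ge n)
  by_contra hcon
  push Not at hcon
  rcases main C hC with ⟨h1, -⟩ | h1
  · set t := negs C.prog with ht'
    set c := copies C.prog with hc'
    have h2 : t * (t + 1) ≤ (t + 1) ^ 2 := by nlinarith
    have h3 : (2 ^ n ^ 2) ^ (2 * k) ≤ 2 ^ (2 * k * c) * ((t + 1) ^ (2 * k)) ^ 2 := by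
      calc (2 ^ n ^ 2) ^ (2 * k) ≤ (2 ^ c * (t + 1) ^ 2) ^ (2 * k) := by
            refine Nat.pow_le_pow_left ?_ _
            have := Nat.mul_le_mul_left (2 ^ c) h2
            omega
        _ = 2 ^ (2 * k * c) * ((t + 1) ^ (2 * k)) ^ 2 := by
            rw [mul_pow, ← pow_mul, ← pow_mul, ← pow_mul]
            congr 2 <;> ring
    have h4 : 2 ^ (2 * k * c) * ((t + 1) ^ (2 * k)) ^ 2 ≤ nv n * (nv n ^ (k - 1)) ^ 2 :=
      Nat.mul_le_mul hcop (Nat.pow_le_pow_left hcon.le 2)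
    have h5 : nv n * (nv n ^ (k - 1)) ^ 2 = nv n ^ (2 * k - 1) := by
      rw [← pow_mul, ← pow_succ']
      congr 1; omega
    have h6 : nv n ^ (2 * k - 1) ≤ 2 ^ ((n ^ 2 + 4 * n) * (2 * k - 1)) := by
      rw [pow_mul]; exact Nat.pow_le_pow_left hN _
    have h7 : 2 ^ (n ^ 2 * (2 * k)) ≤ 2 ^ ((n ^ 2 + 4 * n) * (2 * k - 1)) := by
      rw [pow_mul]
      exact (h3.trans h4).trans (h5 ▸ h6)
    have h8 := (Nat.pow_le_pow_iff_right (by norm_num)).1 h7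
    obtain ⟨k', rfl⟩ : ∃ k', k = k' + 1 := ⟨k - 1, by omega⟩
    have e : 2 * (k' + 1) - 1 = 2 * k' + 1 := by omega
    rw [e] at h8
    have h9 : n * (8 * (k' + 1)) ≤ n * n := Nat.mul_le_mul_left n hnk
    nlinarith
  · set c := copies C.prog with hc'
    set b := ht n + 1 with hb
    have h2 : 2 ^ c ≤ nv n := by
      refine le_trans (Nat.pow_le_pow_right (by norm_num) ?_) hcop
      nlinarith
    have h3 := choose_le (b ^ 2) b
    have h4 : (2 ^ n) ^ b ≤ 2 ^ ((n ^ 2 + 4 * n) * (k + 1)) * b ^ (2 * b) := by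
      calc (2 ^ n) ^ b ≤ 2 ^ c * (w * (b ^ 2).choose b) := h1
        _ ≤ nv n * (nv n ^ k * (b ^ 2) ^ b) := by gcongr
        _ = nv n ^ (k + 1) * b ^ (2 * b) := by rw [← pow_mul]; ring
        _ ≤ 2 ^ ((n ^ 2 + 4 * n) * (k + 1)) * b ^ (2 * b) := by
            rw [pow_mul 2 (n ^ 2 + 4 * n) (k + 1)]
            exact Nat.mul_le_mul_right _ (Nat.pow_le_pow_left hN _)
    have h5 : (2 ^ n) ^ b * (2 ^ n) ^ b ≤
        2 ^ (2 * ((n ^ 2 + 4 * n) * (k + 1))) * (2 ^ n) ^ b := by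
      calc (2 ^ n) ^ b * (2 ^ n) ^ b
          ≤ (2 ^ ((n ^ 2 + 4 * n) * (k + 1)) * b ^ (2 * b)) *
            (2 ^ ((n ^ 2 + 4 * n) * (k + 1)) * b ^ (2 * b)) := Nat.mul_le_mul h4 h4
        _ = 2 ^ (2 * ((n ^ 2 + 4 * n) * (k + 1))) * (b ^ 4) ^ b := by
            rw [← pow_mul b 4 b, two_mul ((n ^ 2 + 4 * n) * (k + 1)), pow_add]
            have e : 4 * b = 2 * b + 2 * b := by ring
            rw [e, pow_add]; ring
        _ ≤ 2 ^ (2 * ((n ^ 2 + 4 * n) * (k + 1))) * (2 ^ n) ^ b :=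
            Nat.mul_le_mul_left _ (Nat.pow_le_pow_left (ht_le hn64) _)
    have h6 : (2 ^ n) ^ b ≤ 2 ^ (2 * ((n ^ 2 + 4 * n) * (k + 1))) :=
      Nat.le_of_mul_le_mul_right h5 (by positivity)
    rw [← pow_mul] at h6
    have h7 := (Nat.pow_le_pow_iff_right (by norm_num)).1 h6
    have h8 : n * (Nat.log 2 n + 1) ≤ b := by rw [hb]; unfold ht; omega
    have h9 : n * (10 * (k + 1) + 1) ≤ b := le_trans (Nat.mul_le_mul_left n (by omega)) h8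
    have h10 : n * (n * (10 * (k + 1) + 1)) ≤ n * b := Nat.mul_le_mul_left n h9
    have h11 : 4 * n ≤ n * n := Nat.mul_le_mul_right n (by omega)
    nlinarith

end Pool.Agent.H581R2.Cmp
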