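import Pool.Agent.H581R2.Cmp.Model

set_option autoImplicit false

/-! The number of changes of the bits entering the negation gates along a chain of inputs. -/

namespace Pool.Agent.H581R2.Cmp

/-- The bits entering the negation gates. -/
def trace {w : ℕ} : List (Ins w) → (Fin w → Bool) → List Bool
  | [], _ => []
  | Ins.neg i :: p, s => s i :: trace p (step (Ins.neg i) s)
  | Ins.cmp i j :: p, s => trace p (step (Ins.cmp i j) s)
  | Ins.copy i j :: p, s => trace p (step (Ins.copy i j) s)

/-- one if the bit goes from `a` to `b` upwards -/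
def upb (a b : Bool) : ℕ := if a = false ∧ b = true then 1 else 0

/-- number of upward changes of bits entering negation gates -/
def plus {w : ℕ} : List (Ins w) → (Fin w → Bool) → (Fin w → Bool) → ℕ
  | [], _, _ => 0
  | Ins.neg i :: p, s, s' => upb (s i) (s' i) + plus p (step (Ins.neg i) s) (step (Ins.neg i) s')
  | Ins.cmp i j :: p, s, s' => plus p (step (Ins.cmp i j) s) (step (Ins.cmp i j) s')
  | Ins.copy i j :: p, s, s' => plus p (step (Ins.copy i j) s) (step (Ins.copy i j) s')

/-- number of wires going down -/
def dec {w : ℕ} (s s' : Fin w → Bool) : ℕ := ∑ i, upb (s' i) (s i)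

theorem sum_one {w : ℕ} (f g : Fin w → ℕ) (i : Fin w) (h : ∀ k, k ≠ i → g k = f k) :
    (∑ k, g k) + f i = (∑ k, f k) + g i := by
  rw [← Finset.add_sum_erase _ g (Finset.mem_univ i), ← Finset.add_sum_erase _ f (Finset.mem_univ i)]
  have : ∑ k ∈ Finset.univ.erase i, g k = ∑ k ∈ Finset.univ.erase i, f k :=
    Finset.sum_congr rfl fun k hk => h k (Finset.ne_of_mem_erase hk)
  rw [this]; ring

theorem sum_two {w : ℕ} (f g : Fin w → ℕ) (i j : Fin w) (hij : i ≠ j)
    (h : ∀ k, k ≠ i → k ≠ j → g k = f k) (h2 : g i + g j ≤ f i + f j) :
    (∑ k, g k) ≤ ∑ k, f k := by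
  have e1 := sum_one (Function.update g i (f i)) g i (fun k hk => by
    rw [Function.update_of_ne hk])
  have e2 := sum_one f (Function.update g i (f i)) j (fun k hk => by
    by_cases hki : k = i
    · subst hki; simp
    · rw [Function.update_of_ne hki]; exact h k hki hk)
  rw [Function.update_self] at e1
  rw [Function.update_of_ne (Ne.symm hij)] at e2
  omega

theorem step_cmp_self {w : ℕ} (i : Fin w) (s : Fin w → Bool) : step (Ins.cmp i i) s = s := by
  funext k
  by_cases hk : k = i
  · subst hk; simp [step]
  · simp [step, Function.update_of_ne hk]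

theorem dec_cmp {w : ℕ} (i j : Fin w) (s s' : Fin w → Bool) :
    dec (step (Ins.cmp i j) s) (step (Ins.cmp i j) s') ≤ dec s s' := by
  by_cases hij : i = j
  · subst hij; rw [step_cmp_self, step_cmp_self]
  · refine sum_two _ _ i j hij (fun k hki hkj => ?_) ?_
    · simp [step, Function.update_of_ne hki, Function.update_of_ne hkj]
    · simp only [step, Function.update_self, Function.update_of_ne hij]
      cases s i <;> cases s j <;> cases s' i <;> cases s' j <;> decide

theorem dec_copy {w : ℕ} (i j : Fin w) (s s' : Fin w → Bool) :
    dec (step (Ins.copy i j) s) (step (Ins.copy i j) s') ≤ 2 * dec s s' := by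
  have h := sum_one (fun k => upb (s' k) (s k))
    (fun k => upb (step (Ins.copy i j) s' k) (step (Ins.copy i j) s k)) j (fun k hk => by
      simp [step, Function.update_of_ne hk])
  have h1 : upb (s' i) (s i) ≤ dec s s' :=
    Finset.single_le_sum (f := fun k => upb (s' k) (s k)) (fun k _ => Nat.zero_le _)
      (Finset.mem_univ i)
  simp only [dec] at h1 ⊢
  simp only [step, Function.update_self] at h ⊢
  omega

theorem dec_neg {w : ℕ} (i : Fin w) (s s' : Fin w → Bool) :
    dec (step (Ins.neg i) s) (step (Ins.neg i) s') + upb (s' i) (s i) =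
      dec s s' + upb (s i) (s' i) := by
  have h := sum_one (fun k => upb (s' k) (s k))
    (fun k => upb (step (Ins.neg i) s' k) (step (Ins.neg i) s k)) i (fun k hk => by
      simp [step, Function.update_of_ne hk])
  have e : upb (!s' i) (!s i) = upb (s i) (s' i) := by
    cases s i <;> cases s' i <;> decide
  simp only [dec]
  simp only [step, Function.update_self] at h ⊢
  rw [e] at h
  exact h

theorem up_down (b : ℕ → Bool) (M : ℕ) :
    (∑ k ∈ Finset.range M, upb (b k) (b (k + 1))) + (b 0).toNat =
      (∑ k ∈ Finset.range M, upb (b (k + 1)) (b k)) + (b M).toNat := by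
  induction M with
  | zero => simp
  | succ M ih =>
    rw [Finset.sum_range_succ, Finset.sum_range_succ]
    have : upb (b M) (b (M + 1)) + (b M).toNat =
        upb (b (M + 1)) (b M) + (b (M + 1)).toNat := by
      cases b M <;> cases b (M + 1) <;> decide
    omega

theorem plus_sum {w : ℕ} (p : List (Ins w)) : ∀ (s : ℕ → Fin w → Bool) (M : ℕ),
    2 * (∑ k ∈ Finset.range M, plus p (s k) (s (k + 1))) ≤
      2 ^ copies p * (2 * (negs p * ∑ k ∈ Finset.range M, dec (s k) (s (k + 1))) +
        negs p * (negs p + 1)) := by
  induction p with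
  | nil => intro s M; simp [plus]
  | cons g p ih =>
    intro s M
    cases g with
    | cmp i j =>
      simp only [plus, negs, copies]
      refine (ih (fun k => step (Ins.cmp i j) (s k)) M).trans ?_
      gcongr with k hk
      exact dec_cmp i j _ _
    | copy i j =>
      simp only [plus, negs, copies]
      refine (ih (fun k => step (Ins.copy i j) (s k)) M).trans ?_
      have h1 : ∑ k ∈ Finset.range M, dec (step (Ins.copy i j) (s k))
          (step (Ins.copy i j) (s (k + 1))) ≤ 2 * ∑ k ∈ Finset.range M, dec (s k) (s (k + 1)) := by
        rw [Finset.mul_sum]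
        exact Finset.sum_le_sum fun k _ => dec_copy i j _ _
      have h2 := Nat.mul_le_mul_left (negs p) h1
      rw [pow_succ]
      calc 2 ^ copies p * (2 * (negs p * ∑ k ∈ Finset.range M, dec (step (Ins.copy i j) (s k))
          (step (Ins.copy i j) (s (k + 1)))) + negs p * (negs p + 1))
          ≤ 2 ^ copies p * (2 * (2 * (2 * (negs p * ∑ k ∈ Finset.range M, dec (s k) (s (k + 1)))
            + negs p * (negs p + 1)))) / 2 := by
            rw [Nat.le_div_iff_mul_le (by norm_num)]
            nlinarith [Nat.zero_le (2 ^ copies p), Nat.zero_le (negs p * (negs p + 1)),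
              Nat.mul_le_mul_left (2 ^ copies p) h2,
              Nat.zero_le (2 ^ copies p * (negs p * (negs p + 1)))]
        _ = 2 ^ copies p * 2 * (2 * (negs p * ∑ k ∈ Finset.range M, dec (s k) (s (k + 1)))
            + negs p * (negs p + 1)) := by
            rw [Nat.div_eq_of_eq_mul_left (by norm_num)]
            ring
    | neg i =>
      simp only [plus, negs, copies]
      rw [Finset.sum_add_distrib, Nat.mul_add]
      have h0 := ih (fun k => step (Ins.neg i) (s k)) M
      have h1 := up_down (fun k => s k i) M
      have h2 : ∑ k ∈ Finset.range M, dec (step (Ins.neg i) (s k)) (step (Ins.neg i) (s (k + 1)))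
          + ∑ k ∈ Finset.range M, upb (s (k + 1) i) (s k i) =
          ∑ k ∈ Finset.range M, dec (s k) (s (k + 1))
          + ∑ k ∈ Finset.range M, upb (s k i) (s (k + 1) i) := by
        rw [← Finset.sum_add_distrib, ← Finset.sum_add_distrib]
        exact Finset.sum_congr rfl fun k _ => dec_neg i _ _
      have h3 : ∑ k ∈ Finset.range M, upb (s (k + 1) i) (s k i) ≤
          ∑ k ∈ Finset.range M, dec (s k) (s (k + 1)) :=
        Finset.sum_le_sum fun k _ => Finset.single_le_sum
          (f := fun l => upb (s (k + 1) l) (s k l)) (fun l _ => Nat.zero_le _) (Finset.mem_univ i)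
      have h4 : (s M i).toNat ≤ 1 := Bool.toNat_le _
      set D := ∑ k ∈ Finset.range M, dec (s k) (s (k + 1)) with hD
      set D' := ∑ k ∈ Finset.range M, dec (step (Ins.neg i) (s k))
        (step (Ins.neg i) (s (k + 1))) with hD'
      set P := ∑ k ∈ Finset.range M, upb (s k i) (s (k + 1) i) with hP
      set N := ∑ k ∈ Finset.range M, upb (s (k + 1) i) (s k i) with hN
      have h5 : D' ≤ D + 1 := by omega
      have h6 : P ≤ D + 1 := by omega
      have h7 : 1 ≤ 2 ^ copies p := Nat.one_le_two_pow
      set c := 2 ^ copies p with hc
      set t := negs p with ht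
      have h8 : t * D' ≤ t * (D + 1) := Nat.mul_le_mul_left t h5
      have h9 : c * (2 * (t * D') + t * (t + 1)) ≤ c * (2 * (t * (D + 1)) + t * (t + 1)) := by
        gcongr
      have h10 : 2 * (D + 1) ≤ c * (2 * (D + 1)) := Nat.le_mul_of_pos_left _ h7
      calc 2 * P + 2 * ∑ k ∈ Finset.range M, plus p (step (Ins.neg i) (s k))
            (step (Ins.neg i) (s (k + 1)))
          ≤ c * (2 * (D + 1)) + c * (2 * (t * (D + 1)) + t * (t + 1)) := by
            have := h0.trans h9
            omega
        _ = c * (2 * ((t + 1) * D) + (t + 1) * (t + 1 + 1)) := by ring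

theorem plus_pos {w : ℕ} (p : List (Ins w)) : ∀ (s s' : Fin w → Bool),
    (∀ i, s i = true → s' i = true) → trace p s ≠ trace p s' → 1 ≤ plus p s s' := by
  induction p with
  | nil => intro s s' _ h; exact absurd rfl h
  | cons g p ih =>
    intro s s' hs h
    cases g with
    | cmp i j =>
      simp only [trace, plus] at h ⊢
      refine ih _ _ (fun k hk => ?_) h
      simp only [step, Function.update_apply] at hk ⊢
      split_ifs at hk ⊢ with h1 h2
      · simp only [Bool.or_eq_true] at hk ⊢
        exact hk.imp (hs i) (hs j)
      · simp only [Bool.and_eq_true] at hk ⊢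
        exact ⟨hs i hk.1, hs j hk.2⟩
      · exact hs k hk
    | copy i j =>
      simp only [trace, plus] at h ⊢
      refine ih _ _ (fun k hk => ?_) h
      simp only [step, Function.update_apply] at hk ⊢
      split_ifs at hk ⊢ with h1
      · exact hs i hk
      · exact hs k hk
    | neg i =>
      simp only [trace, plus] at h ⊢
      by_cases hi : s i = s' i
      · have h' : trace p (step (Ins.neg i) s) ≠ trace p (step (Ins.neg i) s') := by
          intro e; apply h; rw [hi, e]
        have := ih (step (Ins.neg i) s) (step (Ins.neg i) s') (fun k hk => by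
          simp only [step, Function.update_apply] at hk ⊢
          split_ifs at hk ⊢ with h1
          · rw [← hi]; exact hk
          · exact hs k hk) h'
        omega
      · have h1 : s i = false ∧ s' i = true := by
          have := hs i
          cases h2 : s i <;> cases h3 : s' i <;> simp_all
        have : upb (s i) (s' i) = 1 := by rw [h1.1, h1.2]; rfl
        omega

/-- Along a chain of states each step of which changes a bit entering a negation gate there are
at most `2 ^ copies * t (t + 1) / 2` steps. -/
theorem chain_bound {w : ℕ} (p : List (Ins w)) (s : ℕ → Fin w → Bool) (M : ℕ)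
    (h1 : ∀ k < M, ∀ i, s k i = true → s (k + 1) i = true)
    (h2 : ∀ k < M, trace p (s k) ≠ trace p (s (k + 1))) :
    2 * M ≤ 2 ^ copies p * (negs p * (negs p + 1)) := by
  have h := plus_sum p s M
  have hd : ∑ k ∈ Finset.range M, dec (s k) (s (k + 1)) = 0 := by
    refine Finset.sum_eq_zero fun k hk => ?_
    refine Finset.sum_eq_zero fun i _ => ?_
    have := h1 k (Finset.mem_range.1 hk) i
    unfold upb
    rw [if_neg]
    rintro ⟨h3, h4⟩
    rw [this h4] at h3
    exact absurd h3 (by simp)
  rw [hd, Nat.mul_zero, Nat.mul_zero, Nat.zero_add] at h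
  have h3 : M ≤ ∑ k ∈ Finset.range M, plus p (s k) (s (k + 1)) := by
    calc M = ∑ _k ∈ Finset.range M, 1 := by simp
      _ ≤ _ := Finset.sum_le_sum fun k hk => plus_pos p _ _ (h1 k (Finset.mem_range.1 hk))
        (h2 k (Finset.mem_range.1 hk))
  omega

/-- binary value -/
def num : List Bool → ℕ
  | [] => 0
  | b :: l => b.toNat * 2 ^ l.length + num l

theorem num_lt : ∀ l : List Bool, num l < 2 ^ l.length
  | [] => by simp [num]
  | b :: l => by
    have := num_lt l
    have h2 : b.toNat ≤ 1 := Bool.toNat_le b
    simp only [num, List.length_cons, pow_succ]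
    nlinarith [Nat.mul_le_mul_right (2 ^ l.length) h2]

theorem trace_length {w : ℕ} (p : List (Ins w)) : ∀ s, (trace p s).length = negs p := by
  induction p with
  | nil => intro s; rfl
  | cons g p ih =>
    intro s
    cases g with
    | cmp i j => exact ih _
    | copy i j => exact ih _
    | neg i => simp only [trace, negs, List.length_cons, ih]

theorem num_trace {w : ℕ} (p : List (Ins w)) : ∀ (s s' : Fin w → Bool),
    (∀ i, s i = true → s' i = true) → trace p s ≠ trace p s' →
    num (trace p s) < num (trace p s') := by
  induction p with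
  | nil => intro s s' _ h; exact absurd rfl h
  | cons g p ih =>
    intro s s' hs h
    cases g with
    | cmp i j =>
      simp only [trace] at h ⊢
      refine ih _ _ (fun k hk => ?_) h
      simp only [step, Function.update_apply] at hk ⊢
      split_ifs at hk ⊢ with h1 h2
      · simp only [Bool.or_eq_true] at hk ⊢
        exact hk.imp (hs i) (hs j)
      · simp only [Bool.and_eq_true] at hk ⊢
        exact ⟨hs i hk.1, hs j hk.2⟩
      · exact hs k hk
    | copy i j =>
      simp only [trace] at h ⊢
      refine ih _ _ (fun k hk => ?_) h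
      simp only [step, Function.update_apply] at hk ⊢
      split_ifs at hk ⊢ with h1
      · exact hs i hk
      · exact hs k hk
    | neg i =>
      simp only [trace, num, trace_length] at h ⊢
      by_cases hi : s i = s' i
      · have h' : trace p (step (Ins.neg i) s) ≠ trace p (step (Ins.neg i) s') := by
          intro e; apply h; rw [hi, e]
        have := ih (step (Ins.neg i) s) (step (Ins.neg i) s') (fun k hk => by
          simp only [step, Function.update_apply] at hk ⊢
          split_ifs at hk ⊢ with h1
          · rw [← hi]; exact hk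
          · exact hs k hk) h'
        rw [hi]; omega
      · have h1 : s i = false ∧ s' i = true := by
          have := hs i
          cases h2 : s i <;> cases h3 : s' i <;> simp_all
        have h2 := num_lt (trace p (step (Ins.neg i) s))
        rw [trace_length] at h2
        rw [h1.1, h1.2]
        simp only [Bool.toNat_false, Bool.toNat_true, Nat.zero_mul, Nat.one_mul]
        omega

/-- Along such a chain there are fewer than `2 ^ t` steps. -/
theorem chain_bound2 {w : ℕ} (p : List (Ins w)) (s : ℕ → Fin w → Bool) (M : ℕ)
    (h1 : ∀ k < M, ∀ i, s k i = true → s (k + 1) i = true)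
    (h2 : ∀ k < M, trace p (s k) ≠ trace p (s (k + 1))) : M < 2 ^ negs p := by
  have key : ∀ k ≤ M, k ≤ num (trace p (s k)) := by
    intro k
    induction k with
    | zero => intro _; exact Nat.zero_le _
    | succ k ih =>
      intro hk
      have h3 := ih (by omega)
      have h4 := num_trace p (s k) (s (k + 1)) (h1 k (by omega)) (h2 k (by omega))
      omega
  have h3 := key M le_rfl
  have h4 := num_lt (trace p (s M))
  rw [trace_length] at h4
  omega

end Pool.Agent.H581R2.Cmp
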