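import Pool.Agent.H581R2.Cmp.Pebble

set_option autoImplicit false

/-! The lower bound for comparator circuits with few negation gates. -/

namespace Pool.Agent.H581R2.Cmp

open Module

section Inst

variable {h q : ℕ}

/-- positions of the pyramid (and some more) -/
abbrev Pos (h : ℕ) : Type := Fin (h + 1) × Fin (h + 1)

/-- solvable instances -/
def yes (x : Pos h → Fin q) : Rule h q → Bool
  | Rule.src j a => decide (x (Fin.last h, j) = a)
  | Rule.mid i j a b c => decide (x (i.castSucc, j.castSucc) = a ∧ x (i.succ, j.castSucc) = b ∧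
      x (i.succ, j.succ) = c)
  | Rule.fin a => decide (x (0, 0) = a)

/-- unsolvable instances -/
def no (y : Pos h × Fin q → Bool) : Rule h q → Bool
  | Rule.src j a => y ((Fin.last h, j), a)
  | Rule.mid i j a b c => !(y ((i.succ, j.castSucc), b) && y ((i.succ, j.succ), c) &&
      !y ((i.castSucc, j.castSucc), a))
  | Rule.fin a => !y ((0, 0), a)

theorem der_yes (x : Pos h → Fin q) (i : Fin (h + 1)) :
    ∀ j : Fin (h + 1), j ≤ i → Der (yes x) i j (x (i, j)) := by
  induction i using Fin.reverseInduction with
  | last => intro j _; exact Der.src j _ (by simp [yes])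
  | cast i ih =>
    intro j hj
    have hlt : j.val < h := by
      have : j.val ≤ i.val := hj
      have := i.isLt
      omega
    obtain ⟨j', rfl⟩ : ∃ j' : Fin h, j = j'.castSucc := ⟨⟨j.val, hlt⟩, rfl⟩
    have hle : j'.val ≤ i.val := hj
    refine Der.mid i j' _ _ _ ?_ (ih j'.castSucc ?_) (ih j'.succ ?_)
    · simp [yes]
    · rw [Fin.le_def]; simp only [Fin.val_castSucc, Fin.val_succ]; omega
    · rw [Fin.le_def]; simp only [Fin.val_succ]; omega

theorem pyr_yes (x : Pos h → Fin q) : Pyr (yes x) :=
  ⟨x (0, 0), by simp [yes], der_yes x 0 0 le_rfl⟩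

theorem der_no (y : Pos h × Fin q → Bool) {i j : Fin (h + 1)} {a : Fin q}
    (hd : Der (no y) i j a) : y ((i, j), a) = true := by
  induction hd with
  | src j a h1 => exact h1
  | mid i j a b c h1 _ _ h2 h3 =>
    simp only [no, h2, h3, Bool.true_and, Bool.not_not] at h1
    exact h1

theorem pyr_no (y : Pos h × Fin q → Bool) : ¬ Pyr (no y) := by
  rintro ⟨a, h1, h2⟩
  have := der_no y h2
  simp only [no, this] at h1
  exact absurd h1 (by simp)

theorem pyr_zero : ¬ Pyr (fun _ : Rule h q => false) := by
  rintro ⟨a, h1, -⟩
  exact absurd h1 (by simp)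

theorem rule_bound (e : Rule h q) :
    ph (mat (q := q) (Fam h)) {j | Sum.elim yes no j e = true} ≤
      (Fintype.card (Pos h)).choose (h + 1) * q ^ (Fintype.card (Pos h) - (h + 1)) := by
  have hK : ∀ T ∈ Fam h, T.card ≤ h := fun T hT => (mem_fam.1 hT).1
  refine ph_le _ _ (W (Pos h) q h) _ (W_rank h) ?_
  intro x hx
  change yes x e = true at hx
  cases e with
  | src j a =>
    simp only [yes, decide_eq_true_eq] at hx
    obtain ⟨f, hf, hf2⟩ := rect (Fam h) h hK ∅ (Fin.last h, j) (by simp)
      (fun T _ hv hT => fam_src j T hv hT) x {y | no y (Rule.src j a) = false}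
      (fun y _ i hi => absurd hi (by simp)) (fun y hy => by rw [hx]; exact hy)
    refine ⟨f, hf, fun y hy => hf2 y ?_⟩
    change ¬ (no y (Rule.src j a) = true) at hy
    simpa using hy
  | mid i j a b c =>
    simp only [yes, decide_eq_true_eq] at hx
    obtain ⟨ha, hb, hc⟩ := hx
    obtain ⟨f, hf, hf2⟩ := rect (Fam h) h hK {(i.succ, j.castSucc), (i.succ, j.succ)}
      (i.castSucc, j.castSucc) (by
        have : (i.castSucc : Fin (h + 1)) ≠ i.succ := by
          intro he
          have := congrArg Fin.val he
          simp at this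
        simp [this])
      (fun T hp hv hT => fam_mid i j T hp hv hT) x
      {y | no y (Rule.mid i j a b c) = false}
      (fun y hy i' hi => by
        simp only [no, Set.mem_ofPred_eq, Bool.not_eq_false', Bool.and_eq_true] at hy
        simp only [Finset.mem_insert, Finset.mem_singleton] at hi
        rcases hi with rfl | rfl
        · rw [hb]; exact hy.1.1
        · rw [hc]; exact hy.1.2)
      (fun y hy => by
        simp only [no, Set.mem_ofPred_eq, Bool.not_eq_false', Bool.and_eq_true,
          Bool.not_eq_true'] at hy
        rw [ha]; exact hy.2)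
    refine ⟨f, hf, fun y hy => hf2 y ?_⟩
    change ¬ (no y (Rule.mid i j a b c) = true) at hy
    simpa using hy
  | fin a =>
    simp only [yes, decide_eq_true_eq] at hx
    refine ⟨0, Submodule.zero_mem _, fun y hy => ?_⟩
    change ¬ (no y (Rule.fin a) = true) at hy
    have hy' : y ((0, 0), a) = true := by simpa [no] using hy
    rw [mat_top (Fam h) (0, 0) (fun T hT => fam_top hT) x y (by rw [hx]; exact hy')]
    rfl

end Inst

/-- blocks before `n` are unsolvable, block `n` is `z`, the others are empty -/
def put {M h q : ℕ} (l : ℕ → (Pos h × Fin q → Bool)) (n : ℕ) (z : Rule h q → Bool) :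
    Fin M × Rule h q → Bool :=
  fun re => if re.1.val < n then no (l re.1.val) re.2 else if re.1.val = n then z re.2 else false

theorem init_mono {X : Type} {w : ℕ} (C : Circuit X w) {x x' : X → Bool}
    (hx : ∀ e, x e = true → x' e = true) (i : Fin w) : C.init x i = true → C.init x' i = true := by
  unfold Circuit.init
  cases C.lab i with
  | inl e => exact hx e
  | inr b => exact fun h => h

theorem put_update {M h q : ℕ} (l : ℕ → (Pos h × Fin q → Bool)) (n k : ℕ)
    (y : Pos h × Fin q → Bool) (z : Rule h q → Bool) (hk : k ≤ n) :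
    put (M := M) (Function.update l n y) k z = put l k z := by
  funext re
  unfold put
  split_ifs with h1 h2
  · rw [Function.update_of_ne (by omega)]
  · rfl
  · rfl

theorem put_succ {M h q : ℕ} (l : ℕ → (Pos h × Fin q → Bool)) (n : ℕ)
    (y : Pos h × Fin q → Bool) :
    put (M := M) (Function.update l n y) (n + 1) (fun _ => false) = put l n (no y) := by
  funext re
  unfold put
  by_cases h1 : re.1.val < n
  · rw [if_pos (by omega), if_pos h1, Function.update_of_ne (by omega)]
  · rw [if_neg h1]
    by_cases h2 : re.1.val = n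
    · rw [if_pos h2, if_pos (by omega), h2, Function.update_self]
    · rw [if_neg h2, if_neg (by omega)]
      split_ifs <;> rfl

theorem put_le {M h q : ℕ} (l : ℕ → (Pos h × Fin q → Bool)) (n : ℕ) (z : Rule h q → Bool)
    (e : Fin M × Rule h q) (he : put l n (fun _ => false) e = true) : put l n z e = true := by
  unfold put at he ⊢
  split_ifs at he ⊢ with h1 h2
  exact he

theorem stage {M h q w : ℕ} (C : Circuit (Fin M × Rule h q) w)
    (hlt : ¬ (2 * M ≤ 2 ^ copies C.prog * (negs C.prog * (negs C.prog + 1)) ∧
      M < 2 ^ negs C.prog)) :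
    ∃ l : ℕ → (Pos h × Fin q → Bool), ∃ n < M, ∀ y,
      trace C.prog (C.init (put l n (no y))) =
        trace C.prog (C.init (put l n (fun _ => false))) := by
  by_contra hno
  push Not at hno
  have key : ∀ n ≤ M, ∃ l : ℕ → (Pos h × Fin q → Bool), ∀ k < n,
      trace C.prog (C.init (put l k (fun _ => false))) ≠
        trace C.prog (C.init (put l (k + 1) (fun _ => false))) := by
    intro n
    induction n with
    | zero => intro _; exact ⟨fun _ _ => false, fun k hk => absurd hk (by omega)⟩
    | succ n ih =>
      intro hn
      obtain ⟨l, hl⟩ := ih (by omega)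
      obtain ⟨y, hy⟩ := hno l n (by omega)
      refine ⟨Function.update l n y, fun k hk => ?_⟩
      rcases Nat.lt_succ_iff_lt_or_eq.1 hk with hk | hk
      · rw [put_update l n k y _ (by omega), put_update l n (k + 1) y _ (by omega)]
        exact hl k hk
      · subst hk
        rw [put_succ, put_update l k k y _ le_rfl]
        exact fun h => hy h.symm
  obtain ⟨l, hl⟩ := key M le_rfl
  have hmono : ∀ k < M, ∀ i, C.init (put l k (fun _ => false)) i = true →
      C.init (put l (k + 1) (fun _ => false)) i = true := by
    intro k _ i hi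
    refine init_mono C (fun e he => ?_) i hi
    have h1 := put_le l k (no (l k)) e he
    have h2 := put_succ (M := M) l k (l k)
    rw [Function.update_eq_self] at h2
    rw [h2]; exact h1
  exact hlt ⟨chain_bound C.prog (fun k => C.init (put l k (fun _ => false))) M hmono hl,
    chain_bound2 C.prog (fun k => C.init (put l k (fun _ => false))) M hmono hl⟩

/-- The lower bound. -/
theorem main {M h q w : ℕ} (C : Circuit (Fin M × Rule h q) w)
    (hC : ∀ x, C.val x = true ↔ SomePyr M h q x) :
    (2 * M ≤ 2 ^ copies C.prog * (negs C.prog * (negs C.prog + 1)) ∧ M < 2 ^ negs C.prog) ∨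
      q ^ (h + 1) ≤ 2 ^ copies C.prog * (w * ((h + 1) ^ 2).choose (h + 1)) := by
  by_cases hlt : 2 * M ≤ 2 ^ copies C.prog * (negs C.prog * (negs C.prog + 1)) ∧
    M < 2 ^ negs C.prog
  · left; exact hlt
  right
  rcases Nat.eq_zero_or_pos q with hq | hq
  · subst hq; simp
  obtain ⟨l, n, hn, hst⟩ := stage C hlt
  have hV : ∀ y, C.val (put l n (no y)) = false := by
    intro y
    by_contra hcon
    rw [Bool.not_eq_false, hC] at hcon
    obtain ⟨r, hr⟩ := hcon
    rcases lt_trichotomy r.val n with h1 | h1 | h1
    · refine pyr_no (l r.val) ?_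
      have e : (fun e => put l n (no y) (r, e)) = no (l r.val) := by
        funext e; unfold put; exact if_pos h1
      rwa [e] at hr
    · refine pyr_no y ?_
      have e : (fun e => put l n (no y) (r, e)) = no y := by
        funext e; unfold put
        rw [if_neg (by simp only; omega), if_pos h1]
      rwa [e] at hr
    · refine pyr_zero (h := h) (q := q) ?_
      have e : (fun e => put l n (no y) (r, e)) = fun _ => false := by
        funext e; unfold put
        rw [if_neg (by simp only; omega), if_neg (by simp only; omega)]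
      rwa [e] at hr
  have hU : ∀ x, C.val (put l n (yes x)) = true := by
    intro x
    rw [hC]
    refine ⟨⟨n, hn⟩, ?_⟩
    have e : (fun e => put (M := M) l n (yes x) (⟨n, hn⟩, e)) = yes x := by
      funext e; unfold put
      rw [if_neg (by simp), if_pos rfl]
    rw [e]; exact pyr_yes x
  let σ : (Pos h → Fin q) ⊕ (Pos h × Fin q → Bool) → Fin w → Bool :=
    fun j => C.init (put l n (Sum.elim yes no j))
  have hr := rank_le (mat (q := q) (Fam h)) C.prog (C.init (put l n (fun _ => false))) σ C.out
    (fun j i hi => init_mono C (fun e he => put_le l n _ e he) i hi)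
    (fun v => ⟨hst v, hV v⟩) (fun u => hU u)
  rw [mat_rank (Fam h) (fam_empty h)] at hr
  set m := Fintype.card (Pos h) with hm
  have hm2 : m = (h + 1) ^ 2 := by
    rw [hm]; simp [Pos, sq]
  have hPhi : Phi (mat (q := q) (Fam h)) σ ≤ w * (m.choose (h + 1) * q ^ (m - (h + 1))) := by
    unfold Phi
    refine (Finset.sum_le_card_nsmul _ _ (m.choose (h + 1) * q ^ (m - (h + 1)))
      fun i _ => ?_).trans (by simp)
    have hconst : ∀ b : Bool, (∀ j, σ j i = b) →
        ph (mat (q := q) (Fam h)) {j | σ j i = true} ≤ m.choose (h + 1) * q ^ (m - (h + 1)) := by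
      intro b hb
      cases b
      · have : {j | σ j i = true} = ∅ := by ext j; simp [hb j]
        rw [this, ph_empty]; exact Nat.zero_le _
      · have : {j | σ j i = true} = Set.univ := by ext j; simp [hb j]
        rw [this, ph_univ]; exact Nat.zero_le _
    cases hlab : C.lab i with
    | inr b => exact hconst b (fun j => by simp only [σ, Circuit.init, hlab]; rfl)
    | inl re =>
      obtain ⟨r, e⟩ := re
      rcases lt_trichotomy r.val n with h1 | h1 | h1
      · refine hconst (no (l r.val) e) (fun j => ?_)
        simp only [σ, Circuit.init, hlab, Sum.elim_inl]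
        unfold put; exact if_pos h1
      · have e1 : {j | σ j i = true} = {j | Sum.elim yes no j e = true} := by
          ext j
          simp only [σ, Circuit.init, hlab, Sum.elim_inl, Set.mem_ofPred_eq]
          unfold put
          rw [if_neg (by simp only; omega), if_pos h1]
        rw [e1]
        exact rule_bound e
      · refine hconst false (fun j => ?_)
        simp only [σ, Circuit.init, hlab, Sum.elim_inl]
        unfold put
        rw [if_neg (by simp only; omega), if_neg (by simp only; omega)]
  have h2 := hr.trans (Nat.mul_le_mul_left _ hPhi)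
  have hle : h + 1 ≤ m := by rw [hm2]; nlinarith
  have h3 : q ^ m = q ^ (h + 1) * q ^ (m - (h + 1)) := by
    rw [← pow_add]; congr 1; omega
  rw [h3] at h2
  have hpos : 0 < q ^ (m - (h + 1)) := pow_pos hq _
  rw [← hm2]
  refine Nat.le_of_mul_le_mul_right ?_ hpos
  calc q ^ (h + 1) * q ^ (m - (h + 1))
      ≤ 2 ^ copies C.prog * (w * (m.choose (h + 1) * q ^ (m - (h + 1)))) := h2
    _ = 2 ^ copies C.prog * (w * m.choose (h + 1)) * q ^ (m - (h + 1)) := by ring

end Pool.Agent.H581R2.Cmp
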