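import Pool.Agent.H581R2.Cmp.Pot

set_option autoImplicit false

/-! A matrix over `ZMod 2` of full rank, small on the rectangles of the rules. -/

namespace Pool.Agent.H581R2.Cmp

open Module

section Mat

variable {P : Type} [Fintype P] [DecidableEq P] {q : ℕ}

/-- The matrix. -/
def mat (F : Finset (Finset P)) (x : P → Fin q) (y : P × Fin q → Bool) : ZMod 2 :=
  ∑ T ∈ F, if ∀ i, i ∉ T → y (i, x i) = false then 1 else 0

/-- test points -/
def pt (a : P → Fin q) (Y : Finset P) : P × Fin q → Bool :=
  fun z => !(decide (z.1 ∈ Y ∧ z.2 = a z.1))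

theorem pt_false (a : P → Fin q) (Y : Finset P) (i : P) (b : Fin q) :
    pt a Y (i, b) = false ↔ (i ∈ Y ∧ b = a i) := by
  simp [pt]

theorem test_sum (F : Finset (Finset P)) (h0 : ∅ ∈ F) (x a : P → Fin q) :
    ∑ Y : Finset P, mat F x (pt a Y) = if x = a then 1 else 0 := by
  unfold mat
  rw [Finset.sum_comm]
  rw [Finset.sum_eq_single_of_mem ∅ h0]
  · by_cases hxa : x = a
    · rw [if_pos hxa]
      rw [Finset.sum_eq_single_of_mem Finset.univ (Finset.mem_univ _)]
      · rw [if_pos]
        intro i _
        rw [pt_false]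
        exact ⟨Finset.mem_univ _, by rw [hxa]⟩
      · intro Y _ hY
        rw [if_neg]
        intro h
        apply hY
        ext i
        simp only [Finset.mem_univ, iff_true]
        exact ((pt_false a Y i (x i)).1 (h i (by simp))).1
    · rw [if_neg hxa]
      refine Finset.sum_eq_zero fun Y _ => ?_
      rw [if_neg]
      intro h
      apply hxa
      funext i
      exact ((pt_false a Y i (x i)).1 (h i (by simp))).2
  · intro T _ hT
    obtain ⟨t, ht⟩ := Finset.nonempty_iff_ne_empty.2 hT
    have key : ∀ Y : Finset P, (∀ i, i ∉ T → pt a Y (i, x i) = false) ↔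
        (∀ i, i ∉ T → pt a (symmDiff Y {t}) (i, x i) = false) := by
      intro Y
      refine forall_congr' fun i => forall_congr' fun hi => ?_
      rw [pt_false, pt_false, Finset.mem_symmDiff]
      have : i ≠ t := fun e => hi (e ▸ ht)
      simp [this]
    refine Finset.sum_involution (fun Y _ => symmDiff Y {t}) ?_ ?_ ?_ ?_
    · intro Y _
      rw [if_congr (key Y) rfl rfl]
      exact CharTwo.add_self_eq_zero _
    · intro Y _ _ h
      have h1 : t ∈ symmDiff Y {t} ↔ t ∈ Y := by rw [h]
      rw [Finset.mem_symmDiff] at h1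
      simp at h1
    · intro Y _; exact Finset.mem_univ _
    · intro Y _
      simp [symmDiff_assoc]

theorem mat_indep (F : Finset (Finset P)) (h0 : ∅ ∈ F) :
    LinearIndependent (ZMod 2) (mat (q := q) F) := by
  rw [Fintype.linearIndependent_iff]
  intro g hg a
  have h1 : ∑ Y : Finset P, (∑ x : P → Fin q, g x • mat F x) (pt a Y) = 0 := by
    rw [hg]; simp
  simp only [Finset.sum_apply, Pi.smul_apply, smul_eq_mul] at h1
  rw [Finset.sum_comm] at h1
  have h2 : ∀ x : P → Fin q, ∑ Y : Finset P, g x * mat F x (pt a Y) =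
      g x * (if x = a then 1 else 0) := by
    intro x
    rw [← Finset.mul_sum, test_sum F h0]
  simp only [h2] at h1
  simpa using h1

theorem mat_rank (F : Finset (Finset P)) (h0 : ∅ ∈ F) :
    rk (mat (q := q) F) (Set.range Sum.inl) = q ^ Fintype.card P := by
  unfold rk
  have : vec (mat (q := q) F) '' Set.range Sum.inl = Set.range (mat (q := q) F) := by
    ext f
    simp [vec]
  rw [this, finrank_span_eq_card (mat_indep F h0)]
  simp

/-- partial address vectors that miss exactly `K + 1` positions -/
abbrev Idx (P : Type) (q K : ℕ) : Type :=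
  Σ Z : {Z : Finset P // Z.card = K + 1}, ({i : P // i ∉ Z.1} → Fin q)

/-- the monomials -/
def mon {K : ℕ} (z : Idx P q K) (y : P × Fin q → Bool) : ZMod 2 :=
  if ∀ i : {i : P // i ∉ z.1.1}, y (i.1, z.2 i) = false then 1 else 0

theorem idx_card (K : ℕ) : Fintype.card (Idx P q K) =
    (Fintype.card P).choose (K + 1) * q ^ (Fintype.card P - (K + 1)) := by
  rw [Fintype.card_sigma]
  have : ∀ Z : {Z : Finset P // Z.card = K + 1},
      Fintype.card ({i : P // i ∉ Z.1} → Fin q) = q ^ (Fintype.card P - (K + 1)) := by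
    intro Z
    rw [Fintype.card_fun, Fintype.card_fin]
    congr 1
    rw [Fintype.card_subtype_compl]
    simp [Z.2]
  simp only [this, Finset.sum_const, smul_eq_mul, Finset.card_univ]
  congr 1
  have := Fintype.card_finset_len (α := P) (K + 1)
  exact this

/-- the span of the monomials -/
noncomputable def W (P : Type) [Fintype P] [DecidableEq P] (q K : ℕ) :
    Submodule (ZMod 2) ((P × Fin q → Bool) → ZMod 2) :=
  Submodule.span (ZMod 2) (Set.range (mon (P := P) (q := q) (K := K)))

theorem W_rank (K : ℕ) : finrank (ZMod 2) (W P q K) ≤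
    (Fintype.card P).choose (K + 1) * q ^ (Fintype.card P - (K + 1)) := by
  rw [← idx_card (P := P) (q := q) K]
  exact finrank_range_le_card _

theorem rect (F : Finset (Finset P)) (K : ℕ) (hK : ∀ T ∈ F, T.card ≤ K) (pre : Finset P) (v : P)
    (hv : v ∉ pre)
    (hcl : ∀ T : Finset P, pre ⊆ T → v ∉ T → T.card < K → (T ∈ F ↔ insert v T ∈ F))
    (x : P → Fin q) (S : Set (P × Fin q → Bool))
    (h1 : ∀ y ∈ S, ∀ i ∈ pre, y (i, x i) = true) (h2 : ∀ y ∈ S, y (v, x v) = false) :
    ∃ f ∈ W P q K, ∀ y ∈ S, mat F x y = f y := by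
  classical
  let F' := F.filter (fun T => T.card = K ∧ v ∉ T ∧ pre ⊆ T)
  let g : Finset P → ((P × Fin q → Bool) → ZMod 2) := fun T =>
    if hT : (insert v T).card = K + 1 then
      mon (K := K) ⟨⟨insert v T, hT⟩, fun i => x i.1⟩ else 0
  refine ⟨∑ T ∈ F', g T, ?_, ?_⟩
  · refine Submodule.sum_mem _ fun T hT => ?_
    simp only [g]
    split_ifs with h
    · exact Submodule.subset_span ⟨_, rfl⟩
    · exact Submodule.zero_mem _
  · intro y hy
    let f : Finset P → ZMod 2 := fun T => if ∀ i, i ∉ T → y (i, x i) = false then 1 else 0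
    have hf : mat F x y = ∑ T ∈ F, f T := rfl
    have hf1 : ∀ T, v ∉ T → f (insert v T) = f T := by
      intro T hT
      simp only [f]
      congr 1
      simp only [eq_iff_iff]
      constructor
      · intro h i hi
        by_cases hiv : i = v
        · subst hiv; exact h2 y hy
        · exact h i (by simp [hiv, hi])
      · intro h i hi
        exact h i (fun hh => hi (Finset.mem_insert_of_mem hh))
    have hf2 : ∀ T, ¬ pre ⊆ T → f T = 0 := by
      intro T hT
      obtain ⟨i, hi, hi2⟩ := Finset.not_subset.1 hT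
      simp only [f]
      rw [if_neg]
      intro h
      have := h i hi2
      rw [h1 y hy i hi] at this
      exact absurd this (by simp)
    have e1 : ∑ T ∈ F, f T = ∑ T ∈ F.filter (fun T => pre ⊆ T), f T := by
      rw [Finset.sum_filter]
      refine Finset.sum_congr rfl fun T _ => ?_
      split_ifs with h
      · rfl
      · exact hf2 T h
    have e2 : ∑ T ∈ F.filter (fun T => pre ⊆ T), f T =
        ∑ T ∈ (F.filter (fun T => pre ⊆ T)).filter (fun T => v ∈ T), f T +
        ∑ T ∈ (F.filter (fun T => pre ⊆ T)).filter (fun T => v ∉ T), f T :=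
      (Finset.sum_filter_add_sum_filter_not _ _ _).symm
    have e3 : ∑ T ∈ (F.filter (fun T => pre ⊆ T)).filter (fun T => v ∉ T), f T =
        ∑ T ∈ ((F.filter (fun T => pre ⊆ T)).filter (fun T => v ∉ T)).filter
          (fun T => T.card < K), f T +
        ∑ T ∈ ((F.filter (fun T => pre ⊆ T)).filter (fun T => v ∉ T)).filter
          (fun T => ¬ T.card < K), f T :=
      (Finset.sum_filter_add_sum_filter_not _ _ _).symm
    have e4 : ((F.filter (fun T => pre ⊆ T)).filter (fun T => v ∉ T)).filter
          (fun T => ¬ T.card < K) = F' := by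
      ext T
      simp only [Finset.mem_filter, F']
      constructor
      · rintro ⟨⟨⟨ha, hb⟩, hc⟩, hd⟩
        have := hK T ha
        exact ⟨ha, by omega, hc, hb⟩
      · rintro ⟨ha, hb, hc, hd⟩
        exact ⟨⟨⟨ha, hd⟩, hc⟩, by omega⟩
    have e5 : ∑ T ∈ (F.filter (fun T => pre ⊆ T)).filter (fun T => v ∈ T), f T =
        ∑ T ∈ ((F.filter (fun T => pre ⊆ T)).filter (fun T => v ∉ T)).filter
          (fun T => T.card < K), f T := by
      refine Finset.sum_nbij' (fun T => T.erase v) (fun T => insert v T) ?_ ?_ ?_ ?_ ?_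
      · intro T hT
        simp only [Finset.mem_filter] at hT ⊢
        obtain ⟨⟨ha, hb⟩, hc⟩ := hT
        have hcard := Finset.card_erase_of_mem hc
        have hpos : 0 < T.card := Finset.card_pos.2 ⟨v, hc⟩
        have hle := hK T ha
        have hsub : pre ⊆ T.erase v := fun i hi =>
          Finset.mem_erase.2 ⟨fun e => hv (e ▸ hi), hb hi⟩
        have hlt : (T.erase v).card < K := by omega
        refine ⟨⟨⟨?_, hsub⟩, Finset.notMem_erase v T⟩, hlt⟩
        rw [hcl _ hsub (Finset.notMem_erase v T) hlt, Finset.insert_erase hc]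
        exact ha
      · intro T hT
        simp only [Finset.mem_filter] at hT ⊢
        obtain ⟨⟨⟨ha, hb⟩, hc⟩, hd⟩ := hT
        exact ⟨⟨(hcl T hb hc hd).1 ha, hb.trans (Finset.subset_insert v T)⟩,
          Finset.mem_insert_self v T⟩
      · intro T hT
        simp only [Finset.mem_filter] at hT
        exact Finset.insert_erase hT.2
      · intro T hT
        simp only [Finset.mem_filter] at hT
        exact Finset.erase_insert hT.1.2
      · intro T hT
        simp only [Finset.mem_filter] at hT
        conv_lhs => rw [← Finset.insert_erase hT.2]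
        exact hf1 _ (Finset.notMem_erase v T)
    rw [hf, e1, e2, e3, e4, e5, ← add_assoc, CharTwo.add_self_eq_zero, zero_add,
      Finset.sum_apply]
    refine Finset.sum_congr rfl fun T hT => ?_
    simp only [F', Finset.mem_filter] at hT
    obtain ⟨-, hb, hc, -⟩ := hT
    have hcard : (insert v T).card = K + 1 := by rw [Finset.card_insert_of_notMem hc, hb]
    simp only [g]
    rw [dif_pos hcard, ← hf1 T hc]
    simp only [f, mon]
    congr 1
    simp only [eq_iff_iff]
    constructor
    · intro h i; exact h i.1 i.2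
    · intro h i hi; exact h ⟨i, hi⟩

theorem mat_top (F : Finset (Finset P)) (top : P) (ht : ∀ T ∈ F, top ∉ T) (x : P → Fin q)
    (y : P × Fin q → Bool) (hy : y (top, x top) = true) : mat F x y = 0 := by
  unfold mat
  refine Finset.sum_eq_zero fun T hT => ?_
  rw [if_neg]
  intro h
  have := h top (ht T hT)
  rw [hy] at this
  exact absurd this (by simp)

end Mat

end Pool.Agent.H581R2.Cmp
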