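import Mathlib

set_option autoImplicit false

/-! Comparator circuits with negation gates and copy gates; pyramid path systems. -/

namespace Pool.Agent.H581R2.Cmp

/-- The gates of a comparator circuit with `w` wires. -/
inductive Ins (w : ℕ) : Type
  | cmp (i j : Fin w) : Ins w
  | neg (i : Fin w) : Ins w
  | copy (i j : Fin w) : Ins w

/-- The effect of a gate on the values of the wires: `cmp i j` puts the conjunction on wire `i` and
the disjunction on wire `j`, `neg i` negates wire `i`, and `copy i j` puts the value of wire `i`
also on wire `j`. -/
def step {w : ℕ} : Ins w → (Fin w → Bool) → (Fin w → Bool)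
  | Ins.cmp i j, s => Function.update (Function.update s i (s i && s j)) j (s i || s j)
  | Ins.neg i, s => Function.update s i (!s i)
  | Ins.copy i j, s => Function.update s j (s i)

/-- The values of the wires at the end. -/
def run {w : ℕ} : List (Ins w) → (Fin w → Bool) → (Fin w → Bool)
  | [], s => s
  | g :: p, s => run p (step g s)

/-- The number of negation gates. -/
def negs {w : ℕ} : List (Ins w) → ℕ
  | [] => 0
  | Ins.neg _ :: p => negs p + 1
  | Ins.cmp _ _ :: p => negs p
  | Ins.copy _ _ :: p => negs p

/-- The number of copy gates. -/
def copies {w : ℕ} : List (Ins w) → ℕ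
  | [] => 0
  | Ins.neg _ :: p => copies p
  | Ins.cmp _ _ :: p => copies p
  | Ins.copy _ _ :: p => copies p + 1

/-- A comparator circuit with `w` wires on the variables `X`: every wire carries a variable or a
constant at the start, then the gates are applied in order. -/
structure Circuit (X : Type) (w : ℕ) : Type where
  lab : Fin w → X ⊕ Bool
  prog : List (Ins w)
  out : Fin w

/-- The initial values of the wires. -/
def Circuit.init {X : Type} {w : ℕ} (C : Circuit X w) (x : X → Bool) : Fin w → Bool :=
  fun i => Sum.elim x id (C.lab i)

/-- The output. -/
def Circuit.val {X : Type} {w : ℕ} (C : Circuit X w) (x : X → Bool) : Bool :=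
  run C.prog (C.init x) C.out

/-- The rules of a pyramid path system of height `h` with `q` elements at every position. -/
inductive Rule (h q : ℕ) : Type
  | src (j : Fin (h + 1)) (a : Fin q) : Rule h q
  | mid (i j : Fin h) (a b c : Fin q) : Rule h q
  | fin (a : Fin q) : Rule h q

/-- `Der x i j a`: the element `(i, j, a)` is derivable from the rules present in `x`; elements
`(h, j, a)` are axioms if `src j a` is present, and if `mid i j a b c` is present, then
`(i, j, a)` follows from `(i+1, j, b)` and `(i+1, j+1, c)`. -/
inductive Der {h q : ℕ} (x : Rule h q → Bool) : Fin (h + 1) → Fin (h + 1) → Fin q → Prop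
  | src (j : Fin (h + 1)) (a : Fin q) : x (Rule.src j a) = true → Der x (Fin.last h) j a
  | mid (i j : Fin h) (a b c : Fin q) : x (Rule.mid i j a b c) = true →
      Der x i.succ j.castSucc b → Der x i.succ j.succ c → Der x i.castSucc j.castSucc a

/-- The pyramid path system is solvable: some element `(0, 0, a)` with `fin a` present is
derivable. -/
def Pyr {h q : ℕ} (x : Rule h q → Bool) : Prop :=
  ∃ a : Fin q, x (Rule.fin a) = true ∧ Der x 0 0 a

/-- One of `M` disjoint pyramid path systems is solvable. -/
def SomePyr (M h q : ℕ) (x : Fin M × Rule h q → Bool) : Prop :=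
  ∃ r : Fin M, Pyr (fun e => x (r, e))

end Pool.Agent.H581R2.Cmp
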