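import Pool.Agent.H581R2.Cmp.Mat

set_option autoImplicit false

/-! The family of small sets that do not block a pyramid. -/

namespace Pool.Agent.H581R2.Cmp

/-- The path `c` (position `c i` at level `i`) avoids `T`. -/
def Avoid (h : ℕ) (T : Finset (Fin (h + 1) × Fin (h + 1))) (c : ℕ → ℕ) : Prop :=
  c 0 = 0 ∧ (∀ i < h, c (i + 1) = c i ∨ c (i + 1) = c i + 1) ∧ ∀ p ∈ T, c p.1 ≠ p.2

open Classical in
/-- The sets of at most `h` positions avoided by some path from the top to the bottom. -/
noncomputable def Fam (h : ℕ) : Finset (Finset (Fin (h + 1) × Fin (h + 1))) :=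
  Finset.univ.filter (fun T => T.card ≤ h ∧ ∃ c, Avoid h T c)

theorem mem_fam {h : ℕ} {T : Finset (Fin (h + 1) × Fin (h + 1))} :
    T ∈ Fam h ↔ T.card ≤ h ∧ ∃ c, Avoid h T c := by
  simp [Fam]

theorem fam_empty (h : ℕ) : ∅ ∈ Fam h := by
  rw [mem_fam]
  exact ⟨by simp, fun _ => 0, rfl, fun _ _ => Or.inl rfl, by simp⟩

theorem fam_top {h : ℕ} {T : Finset (Fin (h + 1) × Fin (h + 1))} (hT : T ∈ Fam h) :
    ((0 : Fin (h + 1)), (0 : Fin (h + 1))) ∉ T := by
  obtain ⟨-, c, h1, -, h3⟩ := mem_fam.1 hT
  intro hm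
  exact h3 _ hm (by simpa using h1)

theorem path_mono {h : ℕ} {c : ℕ → ℕ} (hc : ∀ i < h, c (i + 1) = c i ∨ c (i + 1) = c i + 1)
    {i : ℕ} (k : ℕ) (hk : i + k ≤ h) : c i ≤ c (i + k) ∧ c (i + k) ≤ c i + k := by
  induction k with
  | zero => simp
  | succ k ih =>
    have h1 := ih (by omega)
    have h2 := hc (i + k) (by omega)
    have e : i + (k + 1) = i + k + 1 := by ring
    rw [e]
    omega

/-- the path that leaves `c` below level `i` and then goes outwards -/
def alt (c : ℕ → ℕ) (i l : ℕ) : ℕ :=
  if l ≤ i then c l else if c (i + 1) = c i then c i + (l - i) else c i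

theorem alt_le {c : ℕ → ℕ} {i l : ℕ} (hl : l ≤ i) : alt c i l = c l := by
  unfold alt; exact if_pos hl

theorem alt_gt {c : ℕ → ℕ} {i l : ℕ} (hl : i < l) :
    alt c i l = if c (i + 1) = c i then c i + (l - i) else c i := by
  unfold alt; exact if_neg (by omega)

theorem block {h : ℕ} {T : Finset (Fin (h + 1) × Fin (h + 1))} {c : ℕ → ℕ} (hc : Avoid h T c)
    (hT : T.card < h) (j : Fin (h + 1)) : ∃ c', Avoid h (insert (Fin.last h, j) T) c' := by
  classical
  obtain ⟨hc0, hc1, hc2⟩ := hc
  by_cases hj : c h = j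
  swap
  · refine ⟨c, hc0, hc1, ?_⟩
    intro p hp
    rcases Finset.mem_insert.1 hp with rfl | hp
    · simpa using hj
    · exact hc2 p hp
  by_contra hno
  push Not at hno
  have key : ∀ i : Fin h, ∃ p ∈ T, i.val < p.1.val ∧ alt c i p.1 = p.2 := by
    intro i
    have hi := i.isLt
    have h1 := hno (alt c i)
    have h2 : alt c i 0 = 0 := by simp [alt, hc0]
    have h3 : ∀ l < h, alt c i (l + 1) = alt c i l ∨ alt c i (l + 1) = alt c i l + 1 := by
      intro l hl
      have := hc1 l hl
      have hci := hc1 i hi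
      rcases lt_trichotomy l i.val with hlt | heq | hgt
      · rw [alt_le (by omega), alt_le (by omega)]
        exact this
      · rw [alt_gt (show i.val < l + 1 by omega), alt_le (show l ≤ i.val by omega), heq]
        split_ifs with a
        · right; omega
        · left; rfl
      · rw [alt_gt (show i.val < l + 1 by omega), alt_gt (show i.val < l by omega)]
        split_ifs with a
        · right; omega
        · left; rfl
    have h4 : ∃ p ∈ insert (Fin.last h, j) T, alt c i p.1 = p.2 := by
      by_contra hcon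
      push Not at hcon
      exact h1 ⟨h2, h3, hcon⟩
    obtain ⟨p, hp, hp2⟩ := h4
    rcases Finset.mem_insert.1 hp with rfl | hp
    · exfalso
      have hm := path_mono hc1 (i := i + 1) (h - (i + 1)) (by omega)
      have e : i.val + 1 + (h - (i.val + 1)) = h := by omega
      rw [e] at hm
      have hci := hc1 i hi
      simp only [Fin.val_last] at hp2
      rw [← hj] at hp2
      rw [alt_gt (show i.val < h by omega)] at hp2
      split_ifs at hp2 with a
      · omega
      · omega
    · refine ⟨p, hp, ?_, hp2⟩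
      by_contra hle
      have : alt c i p.1 = c p.1 := alt_le (by omega)
      rw [this] at hp2
      exact hc2 p hp hp2
  choose f hf1 hf2 hf3 using key
  have hinj : ∀ i i' : Fin h, i < i' → f i ≠ f i' := by
    intro i i' hlt he
    have hi' := i'.isLt
    have hlt' : i.val < i'.val := hlt
    have a1 := hf3 i
    have a2 := hf3 i'
    have a3 := hf2 i'
    rw [he] at a1
    have hm := path_mono hc1 (i := i.val + 1) (i'.val - (i.val + 1)) (by omega)
    have e : i.val + 1 + (i'.val - (i.val + 1)) = i'.val := by omega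
    rw [e] at hm
    have c1 := hc1 i.val (by omega)
    rw [alt_gt (show i.val < (f i').1.val by omega)] at a1
    rw [alt_gt (show i'.val < (f i').1.val by omega)] at a2
    split_ifs at a1 a2 <;> omega
  have hinj' : Function.Injective f := by
    intro i i' he
    rcases lt_trichotomy i i' with hlt | heq | hgt
    · exact absurd he (hinj i i' hlt)
    · exact heq
    · exact absurd he.symm (hinj i' i hgt)
  have := Finset.card_le_card_of_injOn (s := (Finset.univ : Finset (Fin h))) (t := T) f
    (fun i _ => hf1 i) (fun i _ i' _ he => hinj' he)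
  rw [Finset.card_univ, Fintype.card_fin] at this
  omega

theorem fam_src {h : ℕ} (j : Fin (h + 1)) (T : Finset (Fin (h + 1) × Fin (h + 1)))
    (hv : (Fin.last h, j) ∉ T) (hT : T.card < h) :
    T ∈ Fam h ↔ insert (Fin.last h, j) T ∈ Fam h := by
  rw [mem_fam, mem_fam, Finset.card_insert_of_notMem hv]
  constructor
  · rintro ⟨-, c, hc⟩
    exact ⟨by omega, block hc hT j⟩
  · rintro ⟨-, c, h1, h2, h3⟩
    exact ⟨by omega, c, h1, h2, fun p hp => h3 p (Finset.mem_insert_of_mem hp)⟩

theorem fam_mid {h : ℕ} (i j : Fin h) (T : Finset (Fin (h + 1) × Fin (h + 1)))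
    (hp : {(i.succ, j.castSucc), (i.succ, j.succ)} ⊆ T)
    (hv : (i.castSucc, j.castSucc) ∉ T) (hT : T.card < h) :
    T ∈ Fam h ↔ insert (i.castSucc, j.castSucc) T ∈ Fam h := by
  rw [mem_fam, mem_fam, Finset.card_insert_of_notMem hv]
  constructor
  · rintro ⟨-, c, h1, h2, h3⟩
    refine ⟨by omega, c, h1, h2, ?_⟩
    intro p hp'
    rcases Finset.mem_insert.1 hp' with rfl | hp'
    · have a1 := h3 (i.succ, j.castSucc) (hp (by simp))
      have a2 := h3 (i.succ, j.succ) (hp (by simp))
      have a3 := h2 i i.isLt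
      simp only [Fin.val_succ, Fin.val_castSucc] at a1 a2 ⊢
      omega
    · exact h3 p hp'
  · rintro ⟨-, c, h1, h2, h3⟩
    exact ⟨by omega, c, h1, h2, fun p hp => h3 p (Finset.mem_insert_of_mem hp)⟩

end Pool.Agent.H581R2.Cmp
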