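import Pool.Agent.H581R2.Cmp.Rank

set_option autoImplicit false

/-! The potential of a comparator circuit whose negation gates are replaced by constants. -/

namespace Pool.Agent.H581R2.Cmp

/-- The run in which the negation gates put out the negations of the constants `c`. -/
def evalC {w : ℕ} : List (Ins w) → List Bool → (Fin w → Bool) → (Fin w → Bool)
  | [], _, s => s
  | Ins.neg i :: p, c, s => evalC p c.tail (Function.update s i (!c.headD false))
  | Ins.cmp i j :: p, c, s => evalC p c (step (Ins.cmp i j) s)
  | Ins.copy i j :: p, c, s => evalC p c (step (Ins.copy i j) s)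

/-- In that run, some bit entering a negation gate with constant `false` is `true`. -/
def covd {w : ℕ} : List (Ins w) → List Bool → (Fin w → Bool) → Prop
  | [], _, _ => False
  | Ins.neg i :: p, c, s => (c.headD false = false ∧ s i = true) ∨
      covd p c.tail (Function.update s i (!c.headD false))
  | Ins.cmp i j :: p, c, s => covd p c (step (Ins.cmp i j) s)
  | Ins.copy i j :: p, c, s => covd p c (step (Ins.copy i j) s)

theorem step_mono {w : ℕ} (i j : Fin w) (s s' : Fin w → Bool)
    (hs : ∀ k, s k = true → s' k = true) :
    (∀ k, step (Ins.cmp i j) s k = true → step (Ins.cmp i j) s' k = true) ∧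
    (∀ k, step (Ins.copy i j) s k = true → step (Ins.copy i j) s' k = true) := by
  constructor
  · intro k hk
    simp only [step, Function.update_apply] at hk ⊢
    split_ifs at hk ⊢ with h1 h2
    · simp only [Bool.or_eq_true] at hk ⊢
      exact hk.imp (hs i) (hs j)
    · simp only [Bool.and_eq_true] at hk ⊢
      exact ⟨hs i hk.1, hs j hk.2⟩
    · exact hs k hk
  · intro k hk
    simp only [step, Function.update_apply] at hk ⊢
    split_ifs at hk ⊢ with h1
    · exact hs i hk
    · exact hs k hk

theorem follow {w : ℕ} (p : List (Ins w)) : ∀ (s0 s : Fin w → Bool),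
    (∀ i, s0 i = true → s i = true) →
    evalC p (trace p s0) s = run p s ∨ covd p (trace p s0) s := by
  induction p with
  | nil => intro s0 s _; left; rfl
  | cons g p ih =>
    intro s0 s hs
    cases g with
    | cmp i j =>
      simp only [trace, evalC, covd, run]
      exact ih _ _ (step_mono i j s0 s hs).1
    | copy i j =>
      simp only [trace, evalC, covd, run]
      exact ih _ _ (step_mono i j s0 s hs).2
    | neg i =>
      simp only [trace, evalC, covd, run, List.tail_cons, List.headD_cons]
      by_cases hi : s i = s0 i
      · have e : Function.update s i (!s0 i) = step (Ins.neg i) s := by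
          simp only [step]; rw [hi]
        rw [e]
        rcases ih (step (Ins.neg i) s0) (step (Ins.neg i) s) (fun k hk => by
          simp only [step, Function.update_apply] at hk ⊢
          split_ifs at hk ⊢ with h1
          · rw [hi]; exact hk
          · exact hs k hk) with h | h
        · left; exact h
        · right; right; exact h
      · right; left
        have := hs i
        cases h2 : s0 i <;> cases h3 : s i <;> simp_all

theorem follow_eq {w : ℕ} (p : List (Ins w)) : ∀ (s : Fin w → Bool),
    evalC p (trace p s) s = run p s ∧ ¬ covd p (trace p s) s := by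
  induction p with
  | nil => intro s; exact ⟨rfl, fun h => h⟩
  | cons g p ih =>
    intro s
    cases g with
    | cmp i j => simp only [trace, evalC, covd, run]; exact ih _
    | copy i j => simp only [trace, evalC, covd, run]; exact ih _
    | neg i =>
      simp only [trace, evalC, covd, run, List.tail_cons, List.headD_cons]
      have e : Function.update s i (!s i) = step (Ins.neg i) s := rfl
      rw [e]
      refine ⟨(ih _).1, ?_⟩
      rintro (⟨h1, h2⟩ | h)
      · rw [h1] at h2; exact absurd h2 (by simp)
      · exact (ih _).2 h

section Pot

variable {U V : Type} [Fintype V] [DecidableEq V]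

/-- the total potential of the wires -/
noncomputable def Phi {w : ℕ} (A : U → V → ZMod 2) (σ : U ⊕ V → Fin w → Bool) : ℕ :=
  ∑ i, ph A {j | σ j i = true}

/-- the potential of the bits entering the negation gates with constant `false` -/
noncomputable def cp {w : ℕ} (A : U → V → ZMod 2) :
    List (Ins w) → List Bool → (U ⊕ V → Fin w → Bool) → ℕ
  | [], _, _ => 0
  | Ins.neg i :: p, c, σ => (if c.headD false = false then ph A {j | σ j i = true} else 0) +
      cp A p c.tail (fun j => Function.update (σ j) i (!c.headD false))
  | Ins.cmp i j :: p, c, σ => cp A p c (fun l => step (Ins.cmp i j) (σ l))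
  | Ins.copy i j :: p, c, σ => cp A p c (fun l => step (Ins.copy i j) (σ l))

theorem Phi_cmp {w : ℕ} (A : U → V → ZMod 2) (σ : U ⊕ V → Fin w → Bool) (i j : Fin w) :
    Phi A (fun l => step (Ins.cmp i j) (σ l)) ≤ Phi A σ := by
  by_cases hij : i = j
  · subst hij
    have : (fun l => step (Ins.cmp i i) (σ l)) = σ := by
      funext l; exact step_cmp_self i (σ l)
    rw [this]
  · refine sum_two _ _ i j hij (fun k hki hkj => ?_) ?_
    · simp [step, Function.update_of_ne hki, Function.update_of_ne hkj]
    · have e1 : {l | step (Ins.cmp i j) (σ l) i = true} =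
          {l | σ l i = true} ∩ {l | σ l j = true} := by
        ext l
        simp [step, Function.update_of_ne hij]
      have e2 : {l | step (Ins.cmp i j) (σ l) j = true} =
          {l | σ l i = true} ∪ {l | σ l j = true} := by
        ext l
        simp [step]
      rw [e1, e2]
      exact ph_sub A _ _

theorem Phi_copy {w : ℕ} (A : U → V → ZMod 2) (σ : U ⊕ V → Fin w → Bool) (i j : Fin w) :
    Phi A (fun l => step (Ins.copy i j) (σ l)) ≤ 2 * Phi A σ := by
  have h := sum_one (fun k => ph A {l | σ l k = true})
    (fun k => ph A {l | step (Ins.copy i j) (σ l) k = true}) j (fun k hk => by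
      simp [step, Function.update_of_ne hk])
  have h1 : ph A {l | σ l i = true} ≤ Phi A σ :=
    Finset.single_le_sum (f := fun k => ph A {l | σ l k = true}) (fun k _ => Nat.zero_le _)
      (Finset.mem_univ i)
  have e : {l | step (Ins.copy i j) (σ l) j = true} = {l | σ l i = true} := by
    ext l; simp [step]
  rw [e] at h
  have h2 : Phi A (fun l => step (Ins.copy i j) (σ l)) =
      ∑ k, ph A {l | step (Ins.copy i j) (σ l) k = true} := rfl
  have h3 : Phi A σ = ∑ k, ph A {l | σ l k = true} := rfl
  omega

theorem Phi_neg {w : ℕ} (A : U → V → ZMod 2) (σ : U ⊕ V → Fin w → Bool) (i : Fin w) (b : Bool) :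
    Phi A (fun l => Function.update (σ l) i b) + ph A {l | σ l i = true} = Phi A σ := by
  have h := sum_one (fun k => ph A {l | σ l k = true})
    (fun k => ph A {l | Function.update (σ l) i b k = true}) i (fun k hk => by
      simp [Function.update_of_ne hk])
  have e : ph A {l : U ⊕ V | Function.update (σ l) i b i = true} = 0 := by
    cases b
    · have : {l : U ⊕ V | Function.update (σ l) i false i = true} = ∅ := by
        ext l; simp
      rw [this]; exact ph_empty A
    · have : {l : U ⊕ V | Function.update (σ l) i true i = true} = Set.univ := by
        ext l; simp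
      rw [this]; exact ph_univ A
  rw [e] at h
  unfold Phi
  omega

theorem pot {w : ℕ} (A : U → V → ZMod 2) (p : List (Ins w)) : ∀ (c : List Bool)
    (σ : U ⊕ V → Fin w → Bool),
    cp A p c σ + Phi A (fun j => evalC p c (σ j)) ≤ 2 ^ copies p * Phi A σ := by
  induction p with
  | nil => intro c σ; simp [cp, evalC, copies]
  | cons g p ih =>
    intro c σ
    cases g with
    | cmp i j =>
      simp only [cp, evalC, copies]
      exact (ih c _).trans (Nat.mul_le_mul_left _ (Phi_cmp A σ i j))
    | copy i j =>
      simp only [cp, evalC, copies]
      refine (ih c _).trans ((Nat.mul_le_mul_left _ (Phi_copy A σ i j)).trans ?_)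
      rw [pow_succ]; exact le_of_eq (by ring)
    | neg i =>
      simp only [cp, evalC, copies]
      have h1 := ih c.tail (fun j => Function.update (σ j) i (!c.headD false))
      have h2 := Phi_neg A σ i (!c.headD false)
      have h3 : 1 ≤ 2 ^ copies p := Nat.one_le_two_pow
      have h4 : ph A {l | σ l i = true} ≤ 2 ^ copies p * ph A {l | σ l i = true} :=
        Nat.le_mul_of_pos_left _ h3
      rw [← h2, Nat.mul_add]
      split_ifs <;> omega

theorem cov_rk {w : ℕ} (A : U → V → ZMod 2) (p : List (Ins w)) : ∀ (c : List Bool)
    (σ : U ⊕ V → Fin w → Bool) (T : Set (U ⊕ V)), (∀ v, ¬ covd p c (σ (Sum.inr v))) →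
    rk A ({j | covd p c (σ j)} ∪ T) ≤ cp A p c σ + rk A T := by
  induction p with
  | nil =>
    intro c σ T _
    have : {j : U ⊕ V | covd ([] : List (Ins w)) c (σ j)} = ∅ := by
      ext j; simp [covd]
    rw [this, Set.empty_union]; simp [cp]
  | cons g p ih =>
    intro c σ T hV
    cases g with
    | cmp i j => simp only [cp, covd] at hV ⊢; exact ih c _ T hV
    | copy i j => simp only [cp, covd] at hV ⊢; exact ih c _ T hV
    | neg i =>
      simp only [cp, covd] at hV ⊢
      have h1 := ih c.tail (fun j => Function.update (σ j) i (!c.headD false)) T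
        (fun v h => hV v (Or.inr h))
      by_cases hc : c.headD false = false
      · rw [if_pos hc]
        have h2 : ph A {j | σ j i = true} = rk A {j | σ j i = true} :=
          ph_none A (fun v hv => hV v (Or.inl ⟨hc, hv⟩))
        have h3 : {j | (c.headD false = false ∧ σ j i = true) ∨
            covd p c.tail (Function.update (σ j) i (!c.headD false))} ∪ T =
            {j | σ j i = true} ∪
              ({j | covd p c.tail (Function.update (σ j) i (!c.headD false))} ∪ T) := by
          ext j
          simp only [Set.mem_union, Set.mem_ofPred_eq, hc, true_and]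
          tauto
        rw [h3, h2]
        have h4 := rk_union A {j | σ j i = true}
          ({j | covd p c.tail (Function.update (σ j) i (!c.headD false))} ∪ T)
        omega
      · rw [if_neg hc]
        have h3 : {j | (c.headD false = false ∧ σ j i = true) ∨
            covd p c.tail (Function.update (σ j) i (!c.headD false))} ∪ T =
              ({j | covd p c.tail (Function.update (σ j) i (!c.headD false))} ∪ T) := by
          ext j
          simp only [Set.mem_union, Set.mem_ofPred_eq]
          constructor
          · rintro ((⟨h4, -⟩ | h4) | h4)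
            · exact absurd h4 hc
            · left; exact h4
            · right; exact h4
          · rintro (h4 | h4)
            · left; right; exact h4
            · right; exact h4
        rw [h3]
        omega

/-- The rank of `A` is at most the initial potential. -/
theorem rank_le {w : ℕ} (A : U → V → ZMod 2) (p : List (Ins w)) (s0 : Fin w → Bool)
    (σ : U ⊕ V → Fin w → Bool) (out : Fin w)
    (h0 : ∀ j i, s0 i = true → σ j i = true)
    (hV : ∀ v, trace p (σ (Sum.inr v)) = trace p s0 ∧ run p (σ (Sum.inr v)) out = false)
    (hU : ∀ u, run p (σ (Sum.inl u)) out = true) :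
    rk A (Set.range Sum.inl) ≤ 2 ^ copies p * Phi A σ := by
  set c := trace p s0 with hc
  have hcov : ∀ v, ¬ covd p c (σ (Sum.inr v)) := by
    intro v
    rw [← (hV v).1]
    exact (follow_eq p _).2
  have h1 := cov_rk A p c σ {j | evalC p c (σ j) out = true} hcov
  have h2 : rk A (Set.range Sum.inl) ≤
      rk A ({j | covd p c (σ j)} ∪ {j | evalC p c (σ j) out = true}) := by
    apply rk_mono
    rintro _ ⟨u, rfl⟩
    rcases follow p s0 (σ (Sum.inl u)) (h0 _) with h | h
    · right
      change evalC p c (σ (Sum.inl u)) out = true
      rw [hc, h]; exact hU u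
    · left; exact h
  have h3 : ph A {j | evalC p c (σ j) out = true} = rk A {j | evalC p c (σ j) out = true} := by
    apply ph_none
    intro v hv
    have e : evalC p c (σ (Sum.inr v)) = run p (σ (Sum.inr v)) := by
      rw [← (hV v).1]
      exact (follow_eq p _).1
    change evalC p c (σ (Sum.inr v)) out = true at hv
    rw [e, (hV v).2] at hv
    exact absurd hv (by simp)
  have h4 : ph A {j | evalC p c (σ j) out = true} ≤ Phi A (fun j => evalC p c (σ j)) :=
    Finset.single_le_sum (f := fun k => ph A {j | evalC p c (σ j) k = true})
      (fun k _ => Nat.zero_le _) (Finset.mem_univ out)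
  have h5 := pot A p c σ
  omega

end Pot

end Pool.Agent.H581R2.Cmp
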