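import Pool.Agent.H581R2.Cmp.Chain

set_option autoImplicit false

/-! A matroid-rank potential for comparator circuits. -/

namespace Pool.Agent.H581R2.Cmp

open Module

section Rank

variable {U V : Type} [Fintype V] [DecidableEq V]

/-- The vectors attached to the instances: the rows of `A`, and the unit vectors. -/
def vec (A : U → V → ZMod 2) : U ⊕ V → (V → ZMod 2)
  | Sum.inl u => A u
  | Sum.inr v => Pi.single v 1

/-- rank of a set of instances -/
noncomputable def rk (A : U → V → ZMod 2) (S : Set (U ⊕ V)) : ℕ :=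
  finrank (ZMod 2) (Submodule.span (ZMod 2) (vec A '' S))

/-- number of unit vectors in the set -/
noncomputable def cv (S : Set (U ⊕ V)) : ℕ := Set.ncard {v : V | Sum.inr v ∈ S}

/-- the potential of a set -/
noncomputable def ph (A : U → V → ZMod 2) (S : Set (U ⊕ V)) : ℕ := rk A S - cv S

theorem rk_mono (A : U → V → ZMod 2) {S T : Set (U ⊕ V)} (h : S ⊆ T) : rk A S ≤ rk A T :=
  Submodule.finrank_mono (Submodule.span_mono (Set.image_mono h))

theorem rk_sub (A : U → V → ZMod 2) (S T : Set (U ⊕ V)) :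
    rk A (S ∪ T) + rk A (S ∩ T) ≤ rk A S + rk A T := by
  have h1 : Submodule.span (ZMod 2) (vec A '' (S ∪ T)) =
      Submodule.span (ZMod 2) (vec A '' S) ⊔ Submodule.span (ZMod 2) (vec A '' T) := by
    rw [Set.image_union, Submodule.span_union]
  have h2 : Submodule.span (ZMod 2) (vec A '' (S ∩ T)) ≤
      Submodule.span (ZMod 2) (vec A '' S) ⊓ Submodule.span (ZMod 2) (vec A '' T) :=
    le_inf (Submodule.span_mono (Set.image_mono Set.inter_subset_left))
      (Submodule.span_mono (Set.image_mono Set.inter_subset_right))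
  have h3 := Submodule.finrank_mono h2
  have h4 := Submodule.finrank_sup_add_finrank_inf_eq
    (Submodule.span (ZMod 2) (vec A '' S)) (Submodule.span (ZMod 2) (vec A '' T))
  unfold rk
  rw [h1]
  omega

theorem rk_union (A : U → V → ZMod 2) (S T : Set (U ⊕ V)) : rk A (S ∪ T) ≤ rk A S + rk A T := by
  have := rk_sub A S T
  omega

theorem cv_mod (S T : Set (U ⊕ V)) : cv (S ∪ T) + cv (S ∩ T) = cv S + cv T := by
  unfold cv
  have h1 : {v : V | Sum.inr v ∈ S ∪ T} = {v : V | Sum.inr v ∈ S} ∪ {v : V | Sum.inr v ∈ T} := rfl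
  have h2 : {v : V | Sum.inr v ∈ S ∩ T} = {v : V | Sum.inr v ∈ S} ∩ {v : V | Sum.inr v ∈ T} := rfl
  rw [h1, h2]
  exact Set.ncard_union_add_ncard_inter _ _

theorem span_unit (T : Set V) :
    finrank (ZMod 2) (Submodule.span (ZMod 2)
      ((fun v : V => (Pi.single v 1 : V → ZMod 2)) '' T)) = T.ncard := by
  classical
  have hli : LinearIndependent (ZMod 2) (fun v : V => (Pi.single v 1 : V → ZMod 2)) :=
    Pi.linearIndependent_single_one V (ZMod 2)
  have : Fintype T := Fintype.ofFinite T
  have h2 := hli.comp (fun v : T => (v : V)) Subtype.val_injective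
  have h3 := finrank_span_eq_card h2
  rw [Set.image_eq_range, ← Nat.card_coe_set_eq, Nat.card_eq_fintype_card]
  exact h3

theorem cv_le (A : U → V → ZMod 2) (S : Set (U ⊕ V)) : cv S ≤ rk A S := by
  unfold cv rk
  rw [← span_unit]
  apply Submodule.finrank_mono
  apply Submodule.span_mono
  rintro _ ⟨v, hv, rfl⟩
  exact ⟨Sum.inr v, hv, rfl⟩

theorem ph_sub (A : U → V → ZMod 2) (S T : Set (U ⊕ V)) :
    ph A (S ∩ T) + ph A (S ∪ T) ≤ ph A S + ph A T := by
  have h1 := rk_sub A S T
  have h2 := cv_mod S T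
  have h3 := cv_le A S
  have h4 := cv_le A T
  have h5 := cv_le A (S ∩ T)
  have h6 := cv_le A (S ∪ T)
  unfold ph
  omega

theorem ph_empty (A : U → V → ZMod 2) : ph A ∅ = 0 := by
  have : rk A ∅ = 0 := by simp [rk]
  unfold ph; omega

theorem ph_univ (A : U → V → ZMod 2) : ph A Set.univ = 0 := by
  have h1 : rk A Set.univ ≤ Fintype.card V := by
    unfold rk
    refine (Submodule.finrank_le _).trans ?_
    simp
  have h2 : cv (Set.univ : Set (U ⊕ V)) = Fintype.card V := by
    unfold cv
    simp [Set.ncard_univ]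
  unfold ph; omega

theorem ph_none (A : U → V → ZMod 2) {S : Set (U ⊕ V)} (h : ∀ v, Sum.inr v ∉ S) :
    ph A S = rk A S := by
  have : cv S = 0 := by
    unfold cv
    have : {v : V | Sum.inr v ∈ S} = ∅ := by ext v; simp [h v]
    rw [this]; simp
  unfold ph; omega

/-- Bounding the potential of a set. -/
theorem ph_le (A : U → V → ZMod 2) (S : Set (U ⊕ V)) (W : Submodule (ZMod 2) (V → ZMod 2)) (B : ℕ)
    (hB : finrank (ZMod 2) W ≤ B)
    (h : ∀ u, Sum.inl u ∈ S → ∃ f ∈ W, ∀ v, Sum.inr v ∉ S → A u v = f v) : ph A S ≤ B := by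
  have key : Submodule.span (ZMod 2) (vec A '' S) ≤ W ⊔ Submodule.span (ZMod 2)
      ((fun v : V => (Pi.single v 1 : V → ZMod 2)) '' {v | Sum.inr v ∈ S}) := by
    rw [Submodule.span_le]
    rintro _ ⟨u | v, hu, rfl⟩
    · obtain ⟨f, hf, hv⟩ := h u hu
      have e : vec A (Sum.inl u) = f + (A u - f) := by simp [vec]
      rw [e]
      refine Submodule.add_mem_sup hf ?_
      have e2 : A u - f = ∑ v : V, (A u v - f v) • (Pi.single v 1 : V → ZMod 2) := by
        funext k
        simp [Finset.sum_apply, Pi.single_apply]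
      rw [e2]
      refine Submodule.sum_mem _ fun v _ => ?_
      by_cases hvS : Sum.inr v ∈ S
      · exact Submodule.smul_mem _ _ (Submodule.subset_span ⟨v, hvS, rfl⟩)
      · rw [hv v hvS, sub_self, zero_smul]
        exact Submodule.zero_mem _
    · refine (le_sup_right : _ ≤ W ⊔ _) ?_
      exact Submodule.subset_span ⟨v, hu, rfl⟩
  have h1 := Submodule.finrank_mono key
  have h2 := Submodule.finrank_add_le_finrank_add_finrank W (Submodule.span (ZMod 2)
      ((fun v : V => (Pi.single v 1 : V → ZMod 2)) '' {v | Sum.inr v ∈ S}))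
  rw [span_unit] at h2
  unfold ph rk cv
  omega

end Rank

end Pool.Agent.H581R2.Cmp
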