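import Pool.Agent.H581R2.Cmp.Model

set_option autoImplicit false

/-! Monotone Boolean circuits as straight-line lists of functions, with their depths. -/

namespace Pool.Agent.H581R2.Cmp

/-- `Slp L`: the list `L` (latest gate first) is a monotone Boolean circuit: every entry is a
variable, with depth `0`, or the conjunction or the disjunction of two earlier entries, with the
depth one more than the maximum of their depths. -/
inductive Slp {X : Type} : List (((X → Bool) → Bool) × ℕ) → Prop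
  | nil : Slp []
  | var (e : X) (L : List (((X → Bool) → Bool) × ℕ)) : Slp L → Slp ((fun x => x e, 0) :: L)
  | and (f g : (X → Bool) → Bool) (d d' : ℕ) (L : List (((X → Bool) → Bool) × ℕ)) :
      Slp L → (f, d) ∈ L → (g, d') ∈ L → Slp ((fun x => f x && g x, max d d' + 1) :: L)
  | or (f g : (X → Bool) → Bool) (d d' : ℕ) (L : List (((X → Bool) → Bool) × ℕ)) :
      Slp L → (f, d) ∈ L → (g, d') ∈ L → Slp ((fun x => f x || g x, max d d' + 1) :: L)

/-- `f` is computed by a monotone Boolean circuit with at most `s` entries in depth `d`. -/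
def MonCirc {X : Type} (f : (X → Bool) → Bool) (s d : ℕ) : Prop :=
  ∃ (L : List (((X → Bool) → Bool) × ℕ)) (d' : ℕ), Slp L ∧ L.length ≤ s ∧ (f, d') ∈ L ∧ d' ≤ d

section

variable {X : Type}

/-- `f` occurs in `L` with depth at most `d` -/
def Has (L : List (((X → Bool) → Bool) × ℕ)) (f : (X → Bool) → Bool) (d : ℕ) : Prop :=
  ∃ d' ≤ d, (f, d') ∈ L

theorem Has.mono {L L' : List (((X → Bool) → Bool) × ℕ)} {f : (X → Bool) → Bool} {d d' : ℕ}
    (h : Has L f d) (hL : L ⊆ L') (hd : d ≤ d') : Has L' f d' := by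
  obtain ⟨d0, h1, h2⟩ := h
  exact ⟨d0, h1.trans hd, hL h2⟩

/-- `L'` extends `L` by at most `s` gates -/
def Ext (L L' : List (((X → Bool) → Bool) × ℕ)) (s : ℕ) : Prop :=
  Slp L' ∧ L ⊆ L' ∧ L'.length ≤ L.length + s

theorem ext_and {L : List (((X → Bool) → Bool) × ℕ)} (hL : Slp L) {f g : (X → Bool) → Bool}
    {d : ℕ} (hf : Has L f d) (hg : Has L g d) :
    ∃ L', Ext L L' 1 ∧ Has L' (fun x => f x && g x) (d + 1) := by
  obtain ⟨d1, h1, h2⟩ := hf
  obtain ⟨d2, h3, h4⟩ := hg
  exact ⟨_, ⟨Slp.and f g d1 d2 L hL h2 h4, List.subset_cons_self _ _, by simp⟩,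
    max d1 d2 + 1, by omega, by simp⟩

theorem ext_or {L : List (((X → Bool) → Bool) × ℕ)} (hL : Slp L) {f g : (X → Bool) → Bool}
    {d : ℕ} (hf : Has L f d) (hg : Has L g d) :
    ∃ L', Ext L L' 1 ∧ Has L' (fun x => f x || g x) (d + 1) := by
  obtain ⟨d1, h1, h2⟩ := hf
  obtain ⟨d2, h3, h4⟩ := hg
  exact ⟨_, ⟨Slp.or f g d1 d2 L hL h2 h4, List.subset_cons_self _ _, by simp⟩,
    max d1 d2 + 1, by omega, by simp⟩

theorem Ext.trans {L L' L'' : List (((X → Bool) → Bool) × ℕ)} {s s' : ℕ} (h : Ext L L' s)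
    (h' : Ext L' L'' s') : Ext L L'' (s + s') :=
  ⟨h'.1, fun _ hx => h'.2.1 (h.2.1 hx), by have := h.2.2; have := h'.2.2; omega⟩

theorem ext_any (k : ℕ) : ∀ (fs : List ((X → Bool) → Bool)), fs ≠ [] → fs.length ≤ 2 ^ k →
    ∀ (L : List (((X → Bool) → Bool) × ℕ)) (d : ℕ), Slp L → (∀ f ∈ fs, Has L f d) →
    ∃ L', Ext L L' (fs.length - 1) ∧ Has L' (fun x => fs.any (fun f => f x)) (d + k) := by
  induction k with
  | zero =>
    intro fs hne hlen L d hL hf
    match fs, hne, hlen with
    | [f], _, _ =>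
      refine ⟨L, ⟨hL, List.Subset.refl _, by simp⟩, ?_⟩
      have := hf f (by simp)
      simpa using this
    | f :: g :: r, _, hlen => simp at hlen
  | succ k ih =>
    intro fs hne hlen L d hL hf
    by_cases h1 : fs.length ≤ 2 ^ k
    · obtain ⟨L', h2, h3⟩ := ih fs hne h1 L d hL hf
      exact ⟨L', h2, h3.mono (List.Subset.refl _) (by omega)⟩
    · have hp : 0 < 2 ^ k := Nat.two_pow_pos k
      have e := List.take_append_drop (2 ^ k) fs
      have hl1 : (fs.take (2 ^ k)).length = 2 ^ k := by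
        rw [List.length_take]; omega
      have hl2 : (fs.drop (2 ^ k)).length = fs.length - 2 ^ k := List.length_drop
      rw [pow_succ] at hlen
      obtain ⟨L1, h2, h3⟩ := ih (fs.take (2 ^ k)) (by
        intro he; rw [he] at hl1; simp at hl1; omega) (by omega) L d hL
        (fun f hff => hf f (List.mem_of_mem_take hff))
      obtain ⟨L2, h4, h5⟩ := ih (fs.drop (2 ^ k)) (by
        intro he; rw [he] at hl2; simp at hl2; omega) (by omega) L1 d h2.1
        (fun f hff => (hf f (List.mem_of_mem_drop hff)).mono h2.2.1 le_rfl)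
      obtain ⟨L3, h6, h7⟩ := ext_or h4.1 (h3.mono h4.2.1 le_rfl) h5
      refine ⟨L3, ?_, ?_⟩
      · have := (h2.trans h4).trans h6
        refine ⟨this.1, this.2.1, ?_⟩
        have h8 := this.2.2
        omega
      · have e2 : (fun x : X → Bool => fs.any (fun f => f x)) = fun x =>
            (fs.take (2 ^ k)).any (fun f => f x) || (fs.drop (2 ^ k)).any (fun f => f x) := by
          funext x
          rw [← List.any_append, e]
        rw [e2]
        exact h7.mono (List.Subset.refl _) (by omega)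

theorem ext_all {I : Type} (f : I → ((X → Bool) → Bool)) (d s : ℕ)
    (L0 : List (((X → Bool) → Bool) × ℕ))
    (h : ∀ i, ∀ L, Slp L → L0 ⊆ L → ∃ L', Ext L L' s ∧ Has L' (f i) d) (l : List I)
    (hL0 : Slp L0) : ∃ L', Ext L0 L' (l.length * s) ∧ ∀ i ∈ l, Has L' (f i) d := by
  induction l with
  | nil => exact ⟨L0, ⟨hL0, List.Subset.refl _, by simp⟩, by simp⟩
  | cons a l ih =>
    obtain ⟨L1, h1, h2⟩ := ih
    obtain ⟨L2, h3, h4⟩ := h a L1 h1.1 h1.2.1
    refine ⟨L2, ?_, ?_⟩
    · have := h1.trans h3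
      refine ⟨this.1, this.2.1, ?_⟩
      have h5 := this.2.2
      rw [List.length_cons, Nat.succ_mul]
      omega
    · intro i hi
      rcases List.mem_cons.1 hi with rfl | hi
      · exact h4
      · exact (h2 i hi).mono h3.2.1 le_rfl

theorem vars (l : List X) : ∃ L, Slp L ∧ L.length = l.length ∧
    ∀ e ∈ l, Has L (fun x : X → Bool => x e) 0 := by
  induction l with
  | nil => exact ⟨[], Slp.nil, rfl, by simp⟩
  | cons a l ih =>
    obtain ⟨L, h1, h2, h3⟩ := ih
    refine ⟨_, Slp.var a L h1, by simp [h2], ?_⟩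
    intro e he
    rcases List.mem_cons.1 he with rfl | he
    · exact ⟨0, le_rfl, by simp⟩
    · exact (h3 e he).mono (List.subset_cons_self _ _) le_rfl

end

end Pool.Agent.H581R2.Cmp
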